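import Mathlib

set_option autoImplicit false

namespace Pool.Agent.D0H7.FR

open Module Module.End Submodule

/-- a space with a nondegenerate skew-symmetric form has even dimension -/
lemma even_of_skew {K C : Type*} [Field K] [CharZero K] [AddCommGroup C] [Module K C]
    [FiniteDimensional K C] (β : C →ₗ[K] C →ₗ[K] K) (h1 : ∀ x y, β x y = - β y x)
    (h2 : ∀ x, (∀ y, β x y = 0) → x = 0) : Even (finrank K C) := by
  let b := Module.finBasis K C
  let A : Matrix (Fin (finrank K C)) (Fin (finrank K C)) K := Matrix.of fun i j => β (b i) (b j)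
  have hA : A.transpose = -A := by
    ext i j
    show β (b j) (b i) = - β (b i) (b j)
    exact h1 _ _
  have hdet : A.det ≠ 0 := by
    intro h0
    obtain ⟨v, hv, hv'⟩ := Matrix.exists_vecMul_eq_zero_iff.2 h0
    apply hv
    have hx : ∑ i, v i • b i = 0 := by
      apply h2
      intro y
      have h3 : ∀ j, β (∑ i, v i • b i) (b j) = 0 := by
        intro j
        have := congrFun hv' j
        simpa [Matrix.vecMul, dotProduct, A] using this
      have h4 : β (∑ i, v i • b i) = 0 := b.ext h3
      rw [h4]; rfl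
    have := b.linearIndependent
    rw [Fintype.linearIndependent_iff] at this
    funext i
    exact this v hx i
  have h3 : A.det = (-1) ^ (finrank K C) * A.det := by
    conv_lhs => rw [← Matrix.det_transpose, hA, Matrix.det_neg]
    simp
  by_contra hodd
  rw [Nat.not_even_iff_odd] at hodd
  rw [hodd.neg_one_pow] at h3
  apply hdet
  have h4 : (2 : K) * A.det = 0 := by linear_combination h3
  exact (mul_eq_zero.1 h4).resolve_left two_ne_zero

section

variable {K V : Type*} [Field K] [CharZero K] [AddCommGroup V] [Module K V] [FiniteDimensional K V]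
  (B : LinearMap.BilinForm K V) (ε : K) (hs : ∀ x y, B x y = ε * B y x)
  (hB : ∀ x, (∀ y, B x y = 0) → x = 0) (G : End K V) (c : K) (hc : c ≠ 0)
  (hG : ∀ x y, B (G x) (G y) = c ^ 2 * B x y)

omit [CharZero K] [FiniteDimensional K V] in
include hG in
lemma swap_pow (j : ℕ) : ∀ x y,
    B (((G + c • (1 : End K V)) ^ j) x) (((G - c • (1 : End K V)) ^ j) y) =
      (-1) ^ j * B (((G - c • (1 : End K V)) ^ j) x) (((G + c • (1 : End K V)) ^ j) y) := by
  set A : End K V := G + c • (1 : End K V) with hA
  set D : End K V := G - c • (1 : End K V) with hD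
  have hAD : Commute A D := by
    have h1 : Commute G (c • (1 : End K V)) := (Commute.one_right G).smul_right c
    apply Commute.add_left
    · exact (Commute.refl G).sub_right h1
    · exact h1.symm.sub_right (Commute.refl _)
  have h1 : ∀ x y, B (A x) (D y) = - B (D x) (A y) := by
    intro x y
    simp only [hA, hD, LinearMap.add_apply, LinearMap.sub_apply, LinearMap.smul_apply,
      Module.End.one_apply, map_add, map_sub, map_smul, smul_eq_mul]
    rw [hG]
    ring
  induction j with
  | zero => intro x y; simp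
  | succ j ih =>
    intro x y
    have e1 : (A ^ (j + 1)) x = A ((A ^ j) x) := by rw [pow_succ', Module.End.mul_apply]
    have e2 : (D ^ (j + 1)) y = D ((D ^ j) y) := by rw [pow_succ', Module.End.mul_apply]
    have e3 : D ((A ^ j) x) = (A ^ j) (D x) := by
      have := congrArg (fun l : End K V => l x) (hAD.symm.pow_right j).eq
      exact this
    have e4 : A ((D ^ j) y) = (D ^ j) (A y) := by
      have := congrArg (fun l : End K V => l y) (hAD.pow_right j).eq
      exact this
    rw [e1, e2, h1, e3, e4, ih]
    have e5 : (D ^ (j + 1)) x = (D ^ j) (D x) := by rw [pow_succ, Module.End.mul_apply]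
    have e6 : (A ^ (j + 1)) y = (A ^ j) (A y) := by rw [pow_succ, Module.End.mul_apply]
    rw [e5, e6, pow_succ]
    ring

omit [CharZero K] in
lemma orth_of_fitting (horth : ∀ k : ℕ, ∀ x, ((G - c • (1 : End K V)) ^ k) x = 0 →
      ∀ y, B x (((G - c • (1 : End K V)) ^ k) y) = 0) (x : V)
    (hx : x ∈ G.maxGenEigenspace c) (h : ∀ y ∈ G.maxGenEigenspace c, B x y = 0) :
    ∀ y, B x y = 0 := by
  set D : End K V := G - c • (1 : End K V) with hD
  have hfit := LinearMap.isCompl_iSup_ker_pow_iInf_range_pow D
  intro v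
  have hv : v ∈ (⨆ n, LinearMap.ker (D ^ n)) ⊔ (⨅ n, LinearMap.range (D ^ n) : Submodule K V) := by
    rw [hfit.sup_eq_top]; exact mem_top
  obtain ⟨u, hu, r, hr, rfl⟩ := Submodule.mem_sup.1 hv
  have hdir : Directed (· ≤ ·) (fun n => LinearMap.ker (D ^ n)) := by
    apply Monotone.directed_le
    intro m n hmn y hy
    rw [LinearMap.mem_ker] at hy ⊢
    obtain ⟨l, rfl⟩ := Nat.exists_eq_add_of_le' hmn
    rw [pow_add, Module.End.mul_apply, hy, map_zero]
  obtain ⟨k, hk⟩ := (Submodule.mem_iSup_of_directed _ hdir).1 hu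
  have huW : u ∈ G.maxGenEigenspace c := by
    rw [mem_maxGenEigenspace]
    exact ⟨k, hk⟩
  rw [mem_maxGenEigenspace] at hx
  obtain ⟨l, hl⟩ := hx
  obtain ⟨y, rfl⟩ := (Submodule.mem_iInf _).1 hr l
  rw [map_add, h u huW, horth l x hl y, add_zero]

include hs hB hG hc in
/-- For odd `j` (if the form is symmetric; for even `j` if it is alternating) the rank of `(G - c) ^ j`
on the generalised eigenspace of an isometry up to the factor `c ^ 2` is even: Jordan blocks of even
(odd) size occur an even number of times. -/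
theorem parity (horth : ∀ k : ℕ, ∀ x, ((G - c • (1 : End K V)) ^ k) x = 0 →
      ∀ y, B x (((G - c • (1 : End K V)) ^ k) y) = 0) (j : ℕ) (hj : (-1) ^ j * ε = -1) :
    Even (finrank K (G.maxGenEigenspace c) - finrank K (G.genEigenspace c j)) := by
  set A : End K V := G + c • (1 : End K V) with hA
  set D : End K V := G - c • (1 : End K V) with hD
  set W := G.maxGenEigenspace c with hW
  have hAD : Commute A D := by
    have h1 : Commute G (c • (1 : End K V)) := (Commute.one_right G).smul_right c
    apply Commute.add_left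
    · exact (Commute.refl G).sub_right h1
    · exact h1.symm.sub_right (Commute.refl _)
  have hWmem : ∀ x, x ∈ W ↔ ∃ k : ℕ, (D ^ k) x = 0 := fun x => mem_maxGenEigenspace G c x
  have hDW : ∀ x ∈ W, D x ∈ W := by
    intro x hx
    obtain ⟨k, hk⟩ := (hWmem x).1 hx
    rw [hWmem]
    refine ⟨k, ?_⟩
    rw [← Module.End.mul_apply, ← pow_succ, pow_succ', Module.End.mul_apply, hk, map_zero]
  have hAW : ∀ x ∈ W, A x ∈ W := by
    intro x hx
    obtain ⟨k, hk⟩ := (hWmem x).1 hx
    rw [hWmem]
    refine ⟨k, ?_⟩
    have := congrArg (fun l : End K V => l x) (hAD.pow_right k).eq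
    have h2 : A ((D ^ k) x) = (D ^ k) (A x) := this
    rw [← h2, hk, map_zero]
  have hDjW : ∀ x ∈ W, (D ^ j) x ∈ W := by
    intro x hx
    have : ∀ i : ℕ, (D ^ i) x ∈ W := by
      intro i
      induction i with
      | zero => simpa using hx
      | succ i ih => rw [pow_succ', Module.End.mul_apply]; exact hDW _ ih
    exact this j
  -- `A` is bijective on `W`
  have hAinj : ∀ x ∈ W, A x = 0 → x = 0 := by
    intro x hx hAx
    have hDx : D x = (-2 * c) • x := by
      have h1 : G x = -(c • x) := by
        rw [hA, LinearMap.add_apply, LinearMap.smul_apply, Module.End.one_apply] at hAx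
        exact eq_neg_of_add_eq_zero_left hAx
      rw [hD, LinearMap.sub_apply, LinearMap.smul_apply, Module.End.one_apply, h1]
      module
    obtain ⟨k, hk⟩ := (hWmem x).1 hx
    have hpow : ∀ k : ℕ, (D ^ k) x = (-2 * c) ^ k • x := by
      intro k
      induction k with
      | zero => simp
      | succ k ih =>
        rw [pow_succ, Module.End.mul_apply, hDx, map_smul, ih, smul_smul, pow_succ, mul_comm]
    rw [hpow k] at hk
    rcases smul_eq_zero.1 hk with h0 | h0
    · exfalso
      exact pow_ne_zero k (mul_ne_zero (by norm_num) hc) h0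
    · exact h0
  have hAsurj : ∀ i : ℕ, ∀ x ∈ W, ∃ y ∈ W, (A ^ i) y = x := by
    have hone : ∀ x ∈ W, ∃ y ∈ W, A y = x := by
      have hinj : Function.Injective (A.restrict hAW) := by
        rw [injective_iff_map_eq_zero]
        intro x hx
        apply Subtype.ext
        exact hAinj x x.2 (congrArg Subtype.val hx)
      have hsurj := LinearMap.injective_iff_surjective.1 hinj
      intro x hx
      obtain ⟨y, hy⟩ := hsurj ⟨x, hx⟩
      exact ⟨y, y.2, congrArg Subtype.val hy⟩
    intro i
    induction i with
    | zero => intro x hx; exact ⟨x, hx, by simp⟩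
    | succ i ih =>
      intro x hx
      obtain ⟨y, hy, rfl⟩ := hone x hx
      obtain ⟨z, hz, rfl⟩ := ih y hy
      exact ⟨z, hz, by rw [pow_succ', Module.End.mul_apply]⟩
  -- the skew-symmetric form
  let ω : W →ₗ[K] W →ₗ[K] K :=
    (B.compl₁₂ (A ^ j) (D ^ j)).domRestrict₁₂ W W
  have hω : ∀ x y : W, ω x y = B ((A ^ j) x) ((D ^ j) y) := fun x y => rfl
  have hskew : ∀ x y : W, ω x y = - ω y x := by
    intro x y
    rw [hω, hω, swap_pow B G c hG j x y, hs, ← mul_assoc, hj]
    ring
  let E : Submodule K W := (LinearMap.ker (D ^ j)).comap W.subtype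
  have hEmem : ∀ x : W, x ∈ E ↔ (D ^ j) (x : V) = 0 := fun x => Iff.rfl
  obtain ⟨C, hC⟩ := E.exists_isCompl
  have hCrank : finrank K C = finrank K W - finrank K (G.genEigenspace c j) := by
    have h1 := Submodule.finrank_add_eq_of_isCompl hC
    have h2 : finrank K E = finrank K (G.genEigenspace c j) := by
      have h3 : G.genEigenspace c j = E.map W.subtype := by
        ext x
        rw [mem_genEigenspace_nat, LinearMap.mem_ker, Submodule.mem_map]
        constructor
        · intro hx
          exact ⟨⟨x, (hWmem x).2 ⟨j, hx⟩⟩, hx, rfl⟩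
        · rintro ⟨y, hy, rfl⟩
          exact hy
      rw [h3]
      exact (LinearEquiv.finrank_eq (Submodule.equivMapOfInjective W.subtype
        W.injective_subtype E))
    omega
  rw [← hCrank]
  apply even_of_skew (ω.domRestrict₁₂ C C)
  · intro x y
    exact hskew x y
  · intro x hx
    -- `x` is in the radical
    have h1 : ∀ y : W, ω x y = 0 := by
      intro y
      have hy : y ∈ E ⊔ C := by rw [hC.sup_eq_top]; exact mem_top
      obtain ⟨e, he, z, hz, rfl⟩ := Submodule.mem_sup.1 hy
      have h2 : ω x e = 0 := by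
        rw [hω, (hEmem e).1 he, map_zero]
      have h3 : ω x z = 0 := hx ⟨z, hz⟩
      rw [map_add, h2, h3, add_zero]
    have h2 : ∀ y ∈ W, B ((D ^ j) ((x : W) : V)) y = 0 := by
      intro y hy
      obtain ⟨z, hz, rfl⟩ := hAsurj j y hy
      have h3 := h1 ⟨z, hz⟩
      rw [hskew, hω, neg_eq_zero] at h3
      rw [hs]
      change ε * B ((A ^ j) z) ((D ^ j) ((x : W) : V)) = 0
      rw [h3, mul_zero]
    have h3 : (D ^ j) ((x : W) : V) = 0 := by
      apply hB
      exact orth_of_fitting B G c horth _ (hDjW _ (x : W).2) h2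
    have h4 : (x : W) ∈ E := (hEmem x).2 h3
    have h5 : (x : W) ∈ E ⊓ C := ⟨h4, x.2⟩
    rw [hC.inf_eq_bot, Submodule.mem_bot] at h5
    exact Subtype.ext h5

end

end Pool.Agent.D0H7.FR
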