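import Pool.Agent.D0H7.FR.Lin
import Pool.Agent.D0H7.FR.Parity

set_option autoImplicit false

namespace Pool.Agent.D0H7.FR

open Module Module.End Submodule

/-- a locally nilpotent endomorphism of a space of dimension `d` has `d`-th power zero -/
lemma pow_finrank_zero {K V : Type*} [Field K] [AddCommGroup V] [Module K V] [FiniteDimensional K V]
    (D : End K V) (S : Submodule K V) (hDS : ∀ y ∈ S, D y ∈ S)
    (hnil : ∀ y ∈ S, ∃ k : ℕ, (D ^ k) y = 0) (m : ℕ) (hm : finrank K S ≤ m) :
    ∀ y ∈ S, (D ^ m) y = 0 := by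
  intro x hx
  have hn : IsNilpotent (D.restrict hDS) := by
    have h1 : ∃ k : ℕ, ∀ y ∈ S, (D ^ k) y = 0 := by
      refine ⟨finrank K V, fun y hy => ?_⟩
      obtain ⟨k, hk⟩ := hnil y hy
      have h2 : y ∈ D.maxGenEigenspace 0 := by
        rw [mem_maxGenEigenspace]
        exact ⟨k, by rwa [zero_smul, sub_zero]⟩
      rw [maxGenEigenspace_eq_genEigenspace_finrank, mem_genEigenspace_nat, LinearMap.mem_ker,
        zero_smul, sub_zero] at h2
      exact h2
    obtain ⟨k, hk⟩ := h1
    refine ⟨k, ?_⟩
    ext y
    rw [LinearMap.zero_apply, Module.End.pow_restrict]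
    exact hk y y.2
  have hch := hn.charpoly_eq_X_pow_finrank
  have hCH := LinearMap.aeval_self_charpoly (D.restrict hDS)
  rw [hch, map_pow, Polynomial.aeval_X] at hCH
  obtain ⟨l, hl⟩ := Nat.exists_eq_add_of_le' hm
  have h1 : (D.restrict hDS ^ m) ⟨x, hx⟩ = 0 := by
    rw [hl, pow_add, hCH, mul_zero, LinearMap.zero_apply]
  rw [Module.End.pow_restrict] at h1
  exact congrArg Subtype.val h1

section

variable {K V : Type*} [Field K] [CharZero K] [AddCommGroup V] [Module K V] [FiniteDimensional K V]
  (B : LinearMap.BilinForm K V) (hs : ∀ x y, B x y = B y x)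
  (hB : ∀ x, (∀ y, B x y = 0) → x = 0) (G : End K V) (c : K) (hc : c ≠ 0)
  (hG : ∀ x y, B (G x) (G y) = c ^ 2 * B x y)

include hs hB hG hc in
/-- Let `G` be an isometry up to the factor `c ^ 2`. If the generalised eigenspace for `c` exceeds a
nondegenerate part of the eigenspace by at most `δ` dimensions then the Jordan blocks for `c` have size at
most `δ`, and at most `δ - 1` if `δ` is even. -/
theorem block_bound (N : Submodule K V) (hNG : ∀ x ∈ N, G x = c • x)
    (hN : ∀ x ∈ N, (∀ y ∈ N, B x y = 0) → x = 0) (δ m : ℕ) (hm1 : 1 ≤ m)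
    (hδ : δ ≤ m ∨ (Even δ ∧ δ ≤ m + 1))
    (hdim : G.charpoly.rootMultiplicity c ≤ finrank K N + δ) :
    ∀ x ∈ G.maxGenEigenspace c, ((G - c • (1 : End K V)) ^ m) x = 0 := by
  have hor : ∀ k : ℕ, ∀ x, ((G - c • (1 : End K V)) ^ k) x = 0 →
      ∀ y, B x (((G - c • (1 : End K V)) ^ k) y) = 0 := by
    have := orth_range B G c hc hG
    rwa [Algebra.algebraMap_eq_smul_one] at this
  have hadj : ∀ x y, B x ((G - c • (1 : End K V)) y) =
      -(c⁻¹ * B ((G - c • (1 : End K V)) x) (G y)) := by
    have := adj B G c hc hG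
    rwa [Algebra.algebraMap_eq_smul_one] at this
  have hpar : Even (finrank K (G.maxGenEigenspace c) - finrank K (G.genEigenspace c (1 : ℕ))) :=
    parity B 1 (by simpa using hs) hB G c hc hG hor 1 (by norm_num)
  set D : End K V := G - c • (1 : End K V) with hD
  have hDapp : ∀ x, D x = G x - c • x := by
    intro x; simp [hD]
  set W := G.maxGenEigenspace c with hW
  have hWmem : ∀ x, x ∈ W ↔ ∃ k : ℕ, (D ^ k) x = 0 := fun x => mem_maxGenEigenspace G c x
  have hDN : ∀ ν ∈ N, D ν = 0 := by
    intro ν hν
    rw [hDapp, hNG ν hν, sub_self]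
  have hNW : N ≤ W := by
    intro x hx
    rw [hWmem]
    exact ⟨1, by rw [pow_one, hDN x hx]⟩
  let W' : Submodule K V := W ⊓ ⨅ ν : N, LinearMap.ker (B.flip (ν : V))
  have hW'mem : ∀ x, x ∈ W' ↔ x ∈ W ∧ ∀ ν ∈ N, B x ν = 0 := by
    intro x
    simp only [W', Submodule.mem_inf, Submodule.mem_iInf, LinearMap.mem_ker]
    constructor
    · rintro ⟨h1, h2⟩
      exact ⟨h1, fun ν hν => h2 ⟨ν, hν⟩⟩
    · rintro ⟨h1, h2⟩
      exact ⟨h1, fun ν => h2 ν ν.2⟩
  have hW'W : W' ≤ W := fun x hx => ((hW'mem x).1 hx).1
  have hNW' : N ⊓ W' = ⊥ := by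
    rw [eq_bot_iff]
    intro x hx
    obtain ⟨hx1, hx2⟩ := Submodule.mem_inf.1 hx
    exact hN x hx1 ((hW'mem x).1 hx2).2
  have hdec : ∀ x ∈ W, ∃ ν ∈ N, x - ν ∈ W' := by
    intro x hx
    obtain ⟨ν, hν, hν2⟩ := exists_proj B N hN x
    exact ⟨ν, hν, (hW'mem _).2 ⟨W.sub_mem hx (hNW hν), hν2⟩⟩
  have hsup : N ⊔ W' = W := by
    apply le_antisymm (sup_le hNW hW'W)
    intro x hx
    obtain ⟨ν, hν, hν2⟩ := hdec x hx
    have : x = ν + (x - ν) := by abel
    rw [this]
    exact Submodule.add_mem_sup hν hν2
  have hWdim : finrank K W = finrank K N + finrank K W' := by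
    have h3 := Submodule.finrank_sup_add_finrank_inf_eq N W'
    rw [hNW', finrank_bot, add_zero, hsup] at h3
    exact h3
  have hWm : finrank K W = G.charpoly.rootMultiplicity c := LinearMap.finrank_maxGenEigenspace_eq G c
  have hW'δ : finrank K W' ≤ δ := by omega
  have hDW' : ∀ x ∈ W', D x ∈ W' := by
    intro x hx
    obtain ⟨hx1, hx2⟩ := (hW'mem x).1 hx
    rw [hW'mem]
    constructor
    · obtain ⟨k, hk⟩ := (hWmem x).1 hx1
      rw [hWmem]
      refine ⟨k, ?_⟩
      rw [← Module.End.mul_apply, ← pow_succ, pow_succ', Module.End.mul_apply, hk, map_zero]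
    · intro ν hν
      rw [hs, hadj, hDN ν hν, map_zero, LinearMap.zero_apply, mul_zero, neg_zero]
  have hnil : ∀ x ∈ W', ∃ k : ℕ, (D ^ k) x = 0 := fun x hx => (hWmem x).1 (hW'W hx)
  -- the bound on `W'`
  have hW'0 : ∀ x ∈ W', (D ^ m) x = 0 := by
    by_cases hle : finrank K W' ≤ m
    · exact pow_finrank_zero D W' hDW' hnil m hle
    · obtain ⟨heven, hδm⟩ : Even δ ∧ δ ≤ m + 1 := by
        rcases hδ with h1 | h1
        · omega
        · exact h1
      have hd : finrank K W' = δ := by omega
      have hδ' : δ = m + 1 := by omega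
      -- the kernel of `D` on `W'` has even dimension
      let E : Submodule K V := LinearMap.ker D ⊓ W'
      have hker : finrank K (G.genEigenspace c (1 : ℕ)) = finrank K N + finrank K E := by
        have h1 : N ⊔ E = G.genEigenspace c (1 : ℕ) := by
          ext x
          rw [mem_genEigenspace_nat, LinearMap.mem_ker, pow_one]
          constructor
          · intro hx
            obtain ⟨ν, hν, e, he, rfl⟩ := Submodule.mem_sup.1 hx
            have h2 := (Submodule.mem_inf.1 he).1
            rw [LinearMap.mem_ker] at h2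
            have h3 : D (ν + e) = 0 := by rw [map_add, hDN ν hν, h2, add_zero]
            exact h3
          · intro hx
            have hx' : D x = 0 := hx
            obtain ⟨ν, hν, hν2⟩ := hdec x ((hWmem x).2 ⟨1, by rw [pow_one]; exact hx'⟩)
            have : x = ν + (x - ν) := by abel
            rw [this]
            apply Submodule.add_mem_sup hν
            refine Submodule.mem_inf.2 ⟨?_, hν2⟩
            rw [LinearMap.mem_ker, map_sub, hx', hDN ν hν, sub_zero]
        have h2 : N ⊓ E = ⊥ := by
          rw [eq_bot_iff, ← hNW']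
          exact inf_le_inf_left N inf_le_right
        have h3 := Submodule.finrank_sup_add_finrank_inf_eq N E
        rw [h2, finrank_bot, add_zero, h1] at h3
        exact h3
      have hE' : E ≤ W' := inf_le_right
      have hEle : finrank K E ≤ finrank K W' := Submodule.finrank_mono hE'
      have hEeven : Even (finrank K E) := by
        rw [hWdim, hker] at hpar
        have h1 : finrank K N + finrank K W' - (finrank K N + finrank K E) =
            finrank K W' - finrank K E := by omega
        rw [h1, hd] at hpar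
        rw [hd] at hEle
        exact (Nat.even_sub hEle).1 hpar |>.1 heven
      -- the range of `D` on `W'`
      let R : Submodule K V := W'.map D
      have hRdim : finrank K R + finrank K E = finrank K W' := by
        have h1 := LinearMap.finrank_range_add_finrank_ker (D.domRestrict W')
        have h2 : LinearMap.range (D.domRestrict W') = R := by
          rw [LinearMap.range_domRestrict]
        have h3 : finrank K (LinearMap.ker (D.domRestrict W')) = finrank K E := by
          have h4 : E = (LinearMap.ker (D.domRestrict W')).map W'.subtype := by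
            ext x
            rw [Submodule.mem_map]
            constructor
            · intro hx
              obtain ⟨hx1, hx2⟩ := Submodule.mem_inf.1 hx
              exact ⟨⟨x, hx2⟩, hx1, rfl⟩
            · rintro ⟨y, hy, rfl⟩
              exact Submodule.mem_inf.2 ⟨hy, y.2⟩
          rw [h4]
          exact LinearEquiv.finrank_eq (Submodule.equivMapOfInjective W'.subtype
            W'.injective_subtype _)
        rw [h2, h3] at h1
        exact h1
      have hRW' : R ≤ W' := by
        rintro _ ⟨y, hy, rfl⟩
        exact hDW' y hy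
      have hDR : ∀ y ∈ R, D y ∈ R := fun y hy => ⟨y, hRW' hy, rfl⟩
      have hE2 : 2 ≤ finrank K E := by
        by_contra hlt
        have h0 : finrank K E = 0 := by
          obtain ⟨t, ht⟩ := hEeven
          omega
        -- then `D` is injective on `W'`, so `W' = 0`
        have h1 : E = ⊥ := Submodule.finrank_eq_zero.1 h0
        have hinj : ∀ x ∈ W', ∀ k : ℕ, (D ^ k) x = 0 → x = 0 := by
          intro x hx k
          induction k generalizing x with
          | zero => intro h2; simpa using h2
          | succ k ih =>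
            intro h2
            rw [pow_succ, Module.End.mul_apply] at h2
            have h3 := ih (D x) (hDW' x hx) h2
            have h4 : x ∈ E := Submodule.mem_inf.2 ⟨h3, hx⟩
            rw [h1] at h4
            exact (Submodule.mem_bot K).1 h4
        have h2 : W' = ⊥ := by
          rw [eq_bot_iff]
          intro x hx
          obtain ⟨k, hk⟩ := hnil x hx
          exact (Submodule.mem_bot K).2 (hinj x hx k hk)
        rw [h2, finrank_bot] at hd
        omega
      intro x hx
      have hRm : finrank K R ≤ m - 1 := by omega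
      have h1 := pow_finrank_zero D R hDR (fun y hy => hnil y (hRW' hy)) (m - 1) hRm (D x)
        ⟨x, hx, rfl⟩
      obtain ⟨m', rfl⟩ := Nat.exists_eq_add_of_le' hm1
      rw [pow_succ, Module.End.mul_apply]
      exact h1
  intro x hx
  obtain ⟨ν, hν, hν2⟩ := hdec x hx
  have h1 := hW'0 _ hν2
  have h2 : (D ^ m) ν = 0 := by
    obtain ⟨m', rfl⟩ := Nat.exists_eq_add_of_le' hm1
    rw [pow_succ, Module.End.mul_apply, hDN ν hν, map_zero]
  rw [map_sub, h2, sub_zero] at h1
  exact h1

end

end Pool.Agent.D0H7.FR
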