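import Pool.Agent.D0H7.FR.Mult

set_option autoImplicit false

namespace Pool.Agent.D0H7.FR

open Polynomial Finset

lemma unit_dvd (p : ℕ) [Fact p.Prime] {a w : ℕ} {f : ℤ[X]}
    (h : G p (rad p a w) (toP p f) = rad p a w ^ f.natDegree) :
    ∀ i ≤ f.natDegree, ((p ^ (a * w) : ℕ) : ℤ) ^ (f.natDegree - i) ∣ (f.coeff i) ^ 2 := by
  intro i hi
  have hp := p_pos p
  have hr := rad_pos p a w
  have h1 : av p ((toP p f).coeff i) * rad p a w ^ i ≤ rad p a w ^ f.natDegree := by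
    rw [← h]
    exact (toP p f).le_gaussNorm (av p) hr.le i
  unfold toP at h1
  rw [coeff_map, Int.coe_castRingHom, av_int] at h1
  obtain ⟨k, hk⟩ := Nat.exists_eq_add_of_le hi
  rw [hk] at h1 ⊢
  rw [show i + k - i = k by omega]
  have h2 : ‖((f.coeff i : ℤ) : ℚ_[p])‖ ≤ rad p a w ^ k := by
    rw [pow_add, mul_comm] at h1
    exact le_of_mul_le_mul_left h1 (pow_pos hr i)
  have h3 : ‖((f.coeff i : ℤ) : ℚ_[p])‖ ^ 2 ≤ (rad p a w ^ k) ^ 2 :=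
    pow_le_pow_left₀ (norm_nonneg _) h2 2
  rw [rad_pow_sq, ← norm_pow] at h3
  have h4 : ‖((((f.coeff i) ^ 2 : ℤ)) : ℚ_[p])‖ ≤ (p : ℝ) ^ (-((a * w * k : ℕ) : ℤ)) := by
    push_cast at h3 ⊢
    exact h3
  have h5 := (Padic.norm_int_le_pow_iff_dvd _ _).1 h4
  have h6 : ((p ^ (a * w) : ℕ) : ℤ) ^ k = ((p ^ (a * w * k) : ℕ) : ℤ) := by
    push_cast
    rw [← pow_mul]
  rw [h6]
  exact_mod_cast h5

end Pool.Agent.D0H7.FR
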