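import Pool.Agent.D0H7.FR.Bound

set_option autoImplicit false

namespace Pool.Agent.D0H7.FR

open Polynomial Finset

/-- `α` is not of the form `q ^ (w / 2) ζ`, `q = p ^ a`, with a root of unity `ζ`. -/
def NonTate {K : Type*} [Field K] (p a w : ℕ) (α : K) : Prop :=
  ∀ n : ℕ, 0 < n → α ^ (2 * n) ≠ (p : K) ^ (a * w * n)

lemma G_prod (p : ℕ) [Fact p.Prime] {r : ℝ} (hr : 0 < r) {ι : Type*} (s : Finset ι)
    (f : ι → (PadicAlgCl p)[X]) : G p r (∏ i ∈ s, f i) = ∏ i ∈ s, G p r (f i) := by
  classical
  induction s using Finset.induction with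
  | empty =>
    simp only [prod_empty]
    have := G_pow p hr 1 0
    rwa [pow_zero, pow_zero] at this
  | insert i s hi ih => rw [prod_insert hi, prod_insert hi, G_mul p hr, ih]

lemma rootMult_le {K : Type*} [Field K] [CharZero K] {P : ℤ[X]} (hP : P.Monic) (α : K)
    (hroot : aeval α P = 0) :
    (P.map (Int.castRingHom K)).rootMultiplicity α ≤ multiplicity (minpoly ℤ α) P ∧
      0 < multiplicity (minpoly ℤ α) P ∧
      FiniteMultiplicity (minpoly ℤ α) P := by
  have hint : IsIntegral ℤ α := ⟨P, hP, hroot⟩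
  set f := minpoly ℤ α with hf
  have hfm : f.Monic := minpoly.monic hint
  have hfp : 0 < f.natDegree := minpoly.natDegree_pos hint
  have hfin : FiniteMultiplicity f P :=
    finiteMultiplicity_of_degree_pos_of_monic (natDegree_pos_iff_degree_pos.1 hfp) hfm hP.ne_zero
  obtain ⟨g, hg1, hg2⟩ := hfin.exists_eq_pow_mul_and_not_dvd
  set e := multiplicity f P with he
  have hgm : g.Monic := by
    have := hP
    rw [hg1] at this
    exact (hfm.pow e).of_mul_monic_left this
  have hmult : (P.map (Int.castRingHom K)).rootMultiplicity α ≤ e := by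
    have h1 : P.map (Int.castRingHom K) =
        (f.map (Int.castRingHom K)) ^ e * g.map (Int.castRingHom K) := by
      rw [← Polynomial.map_pow, ← Polynomial.map_mul, ← hg1]
    have hfK : f.map (Int.castRingHom K) ≠ 0 := (hfm.map _).ne_zero
    have hgK : g.map (Int.castRingHom K) ≠ 0 := (hgm.map _).ne_zero
    have h2 : (g.map (Int.castRingHom K)).rootMultiplicity α = 0 := by
      apply rootMultiplicity_eq_zero
      intro h3
      apply hg2
      apply minpoly.isIntegrallyClosed_dvd hint
      rw [aeval_def, ← eval_map]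
      exact h3
    have h4 : (f.map (Int.castRingHom K)).rootMultiplicity α ≤ 1 := by
      apply rootMultiplicity_le_one_of_separable
      have h5 : f.map (Int.castRingHom K) = (minpoly ℚ α).map (algebraMap ℚ K) := by
        rw [minpoly.isIntegrallyClosed_eq_field_fractions' ℚ hint, Polynomial.map_map]
        congr 1
        exact RingHom.ext_int _ _
      rw [h5]
      apply Separable.map
      exact (minpoly.irreducible (hint.tower_top (A := ℚ))).separable
    have h6 : ∀ n : ℕ, ((f.map (Int.castRingHom K)) ^ n).rootMultiplicity α ≤ n := by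
      intro n
      induction n with
      | zero => rw [pow_zero, ← C_1, rootMultiplicity_C]
      | succ n ih =>
        rw [pow_succ, rootMultiplicity_mul (mul_ne_zero (pow_ne_zero n hfK) hfK)]
        omega
    rw [h1, rootMultiplicity_mul (mul_ne_zero (pow_ne_zero e hfK) hgK), h2]
    exact h6 e
  refine ⟨hmult, ?_, hfin⟩
  have h1 : 0 < (P.map (Int.castRingHom K)).rootMultiplicity α := by
    rw [rootMultiplicity_pos (hP.map _).ne_zero]
    unfold IsRoot
    rw [eval_map]
    exact hroot
  omega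

lemma gap_of_nonTate {K : Type*} [Field K] [CharZero K] {p : ℕ} [Fact p.Prime] {a w : ℕ} {h : ℕ → ℕ}
    {P : ℤ[X]} (hP : IsFrobPoly p a w h P) (α : K) (hα : NonTate p a w α) (t : ℕ)
    (ht : ∀ f : ℤ[X], f.Monic → f ∣ P → Gap p a w t f) (hroot : aeval α P = 0) :
    (p : ℝ) ^ t * (rad p a w ^ (minpoly ℤ α).natDegree) ^ 2 ≤
      G p (rad p a w) (toP p (minpoly ℤ α)) ^ 2 := by
  have hint : IsIntegral ℤ α := ⟨P, hP.monic, hroot⟩
  have hfm : (minpoly ℤ α).Monic := minpoly.monic hint
  have hf1 : aeval α (minpoly ℤ α) = 0 := minpoly.aeval ℤ α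
  have hdvd : minpoly ℤ α ∣ P := minpoly.isIntegrallyClosed_dvd hint hroot
  rcases ht _ hfm hdvd with h1 | h1
  · exfalso
    have hN : 0 < p ^ (a * w) := pow_pos (Fact.out : p.Prime).pos _
    obtain ⟨n, hn, hn1⟩ := kronecker (p ^ (a * w)) hN α _ hfm hf1 (unit_dvd p h1) (by
      intro z hz
      push_cast
      apply hP.weil z
      obtain ⟨u, hu⟩ := hdvd
      rw [hu, map_mul, hz, zero_mul])
    apply hα n hn
    rw [hn1]
    push_cast
    rw [← pow_mul]
  · exact h1

/-- The sum of the multiplicities of pairwise non-conjugate eigenvalues which are not `q ^ (w / 2)`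
times a root of unity is bounded by the Hodge numbers. -/
theorem fam_bound {K : Type*} [Field K] [CharZero K] {p : ℕ} [Fact p.Prime] {a w : ℕ} {h : ℕ → ℕ}
    {P : ℤ[X]} (hP : IsFrobPoly p a w h P) (t : ℕ)
    (ht : ∀ f : ℤ[X], f.Monic → f ∣ P → Gap p a w t f) (s : Finset K)
    (hs : ∀ α ∈ s, NonTate p a w α)
    (hinj : ∀ α ∈ s, ∀ β ∈ s, minpoly ℤ α = minpoly ℤ β → α = β) :
    t * ∑ α ∈ s, (P.map (Int.castRingHom K)).rootMultiplicity α ≤ a * width w h := by
  classical
  have hp := p_pos p
  have hr := rad_pos p a w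
  set s' := s.filter (fun α => aeval α P = 0) with hs'
  have hsum : ∑ α ∈ s, (P.map (Int.castRingHom K)).rootMultiplicity α =
      ∑ α ∈ s', (P.map (Int.castRingHom K)).rootMultiplicity α := by
    rw [hs', sum_filter]
    apply sum_congr rfl
    intro α _
    split_ifs with h0
    · rfl
    · apply rootMultiplicity_eq_zero
      intro h1
      apply h0
      rw [aeval_def, ← eval_map]
      exact h1
  have hmem : ∀ α ∈ s', α ∈ s ∧ aeval α P = 0 := fun α hα => mem_filter.1 hα
  let e : K → ℕ := fun α => multiplicity (minpoly ℤ α) P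
  have hle : ∑ α ∈ s', (P.map (Int.castRingHom K)).rootMultiplicity α ≤ ∑ α ∈ s', e α :=
    sum_le_sum fun α hα => (rootMult_le hP.monic α (hmem α hα).2).1
  have hint : ∀ α ∈ s', IsIntegral ℤ α := fun α hα => ⟨P, hP.monic, (hmem α hα).2⟩
  have hfm : ∀ α ∈ s', (minpoly ℤ α).Monic := fun α hα => minpoly.monic (hint α hα)
  have hdvd : ∏ α ∈ s', (minpoly ℤ α) ^ e α ∣ P := by
    apply Finset.prod_dvd_of_isRelPrime
    · intro α hα β hβ hne
      have h1 : Prime (minpoly ℤ α) := minpoly.prime_of_isIntegrallyClosed (hint α hα)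
      have h2 : Prime (minpoly ℤ β) := minpoly.prime_of_isIntegrallyClosed (hint β hβ)
      have h3 : IsRelPrime (minpoly ℤ α) (minpoly ℤ β) := by
        rw [h1.irreducible.isRelPrime_iff_not_dvd]
        intro h4
        apply hne
        apply hinj α (hmem α hα).1 β (hmem β hβ).1
        exact eq_of_monic_of_associated (hfm α hα) (hfm β hβ)
          (h1.irreducible.associated_of_dvd h2.irreducible h4)
      exact h3.pow
    · intro α hα
      exact pow_multiplicity_dvd _ _
  obtain ⟨g, hg⟩ := hdvd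
  set Q := ∏ α ∈ s', (minpoly ℤ α) ^ e α with hQ
  have hQm : Q.Monic := monic_prod_of_monic _ _ fun α hα => (hfm α hα).pow _
  have hgm : g.Monic := by
    have := hP.monic
    rw [hg] at this
    exact hQm.of_mul_monic_left this
  have hup := upper p hP
  have hGP : G p (rad p a w) (toP p P) =
      (∏ α ∈ s', G p (rad p a w) (toP p (minpoly ℤ α)) ^ e α) * G p (rad p a w) (toP p g) := by
    have h1 : toP p P = (∏ α ∈ s', toP p (minpoly ℤ α) ^ e α) * toP p g := by
      unfold toP
      rw [hg, Polynomial.map_mul, hQ, Polynomial.map_prod]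
      congr 1
      apply prod_congr rfl
      intro α _
      rw [Polynomial.map_pow]
    rw [h1, G_mul p hr, G_prod p hr]
    congr 1
    apply prod_congr rfl
    intro α _
    rw [G_pow p hr]
  have hdeg : P.natDegree = (∑ α ∈ s', e α * (minpoly ℤ α).natDegree) + g.natDegree := by
    conv_lhs => rw [hg]
    rw [hQm.natDegree_mul hgm, hQ, natDegree_prod_of_monic _ _ fun α hα => (hfm α hα).pow _]
    congr 1
    apply sum_congr rfl
    intro α hα
    rw [(hfm α hα).natDegree_pow]
  have hgl := lower p hr hgm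
  have h7 : (∏ α ∈ s', ((p : ℝ) ^ t * (rad p a w ^ (minpoly ℤ α).natDegree) ^ 2) ^ e α) *
      (rad p a w ^ g.natDegree) ^ 2 ≤
      (p : ℝ) ^ (a * width w h) * (rad p a w ^ P.natDegree) ^ 2 := by
    refine le_trans ?_ hup
    rw [hGP, mul_pow (∏ α ∈ s', G p (rad p a w) (toP p (minpoly ℤ α)) ^ e α)]
    apply mul_le_mul
    · rw [← prod_pow]
      apply prod_le_prod
      · intro α _
        positivity
      · intro α hα
        rw [← pow_mul (G p (rad p a w) (toP p (minpoly ℤ α))), mul_comm (e α) 2,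
          pow_mul (G p (rad p a w) (toP p (minpoly ℤ α)))]
        exact pow_le_pow_left₀ (by positivity)
          (gap_of_nonTate hP α (hs α (hmem α hα).1) t ht (hmem α hα).2) _
    · exact pow_le_pow_left₀ (pow_pos hr _).le hgl 2
    · positivity
    · positivity
  have h8 : (∏ α ∈ s', ((p : ℝ) ^ t * (rad p a w ^ (minpoly ℤ α).natDegree) ^ 2) ^ e α) *
      (rad p a w ^ g.natDegree) ^ 2 =
      (p : ℝ) ^ (t * ∑ α ∈ s', e α) * (rad p a w ^ P.natDegree) ^ 2 := by
    rw [hdeg, pow_add, mul_pow, ← mul_assoc]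
    congr 1
    rw [mul_sum, ← prod_pow_eq_pow_sum, ← prod_pow_eq_pow_sum, ← prod_pow, ← prod_mul_distrib]
    apply prod_congr rfl
    intro α _
    rw [mul_pow]
    ring
  rw [h8] at h7
  have h9 : (p : ℝ) ^ (t * ∑ α ∈ s', e α) ≤ (p : ℝ) ^ (a * width w h) :=
    le_of_mul_le_mul_right h7 (pow_pos (pow_pos hr _) 2)
  have h10 : t * ∑ α ∈ s', e α ≤ a * width w h := (pow_le_pow_iff_right₀ (p_one p)).1 h9
  rw [hsum]
  exact (Nat.mul_le_mul_left t hle).trans h10

end Pool.Agent.D0H7.FR
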