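import Pool.Agent.D0H7.FR.Lin

set_option autoImplicit false

namespace Pool.Agent.D0H7.FR

open Polynomial Module Module.End

variable {K V : Type*} [Field K] [AddCommGroup V] [Module K V]

lemma maxGen_of_sq (F : End K V) (μ : K)
    (h : ∀ x, (F - μ • (1 : End K V)) ((F - μ • (1 : End K V)) x) = 0 →
      (F - μ • (1 : End K V)) x = 0) :
    F.maxGenEigenspace μ = F.eigenspace μ := by
  apply le_antisymm
  · intro x hx
    rw [mem_maxGenEigenspace] at hx
    obtain ⟨k, hk⟩ := hx
    rw [mem_eigenspace_iff]
    have hall : ∀ k : ℕ, ∀ x, ((F - μ • (1 : End K V)) ^ k) x = 0 →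
        (F - μ • (1 : End K V)) x = 0 := by
      intro k
      induction k with
      | zero =>
        intro x h0
        have : x = 0 := by simpa using h0
        rw [this, map_zero]
      | succ k ih =>
        intro x h0
        rw [pow_succ, Module.End.mul_apply] at h0
        exact h x (ih _ h0)
    have := hall k x hk
    rw [LinearMap.sub_apply, LinearMap.smul_apply, Module.End.one_apply] at this
    exact sub_eq_zero.1 this
  · exact (F.genEigenspace μ).monotone le_top

/-- an endomorphism without Jordan blocks is semisimple -/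
lemma isSemisimple_of_sq [IsAlgClosed K] [FiniteDimensional K V] (F : End K V)
    (h : ∀ (μ : K) (x : V), (F - μ • (1 : End K V)) ((F - μ • (1 : End K V)) x) = 0 →
      (F - μ • (1 : End K V)) x = 0) :
    F.IsSemisimple := by
  classical
  have htop : ⨆ μ, F.eigenspace μ = ⊤ := by
    rw [← iSup_maxGenEigenspace_eq_top F]
    congr 1
    funext μ
    exact (maxGen_of_sq F μ (h μ)).symm
  let q : K[X] := ∏ μ ∈ F.charpoly.roots.toFinset, (X - C μ)
  have hq : Squarefree q := by
    have : q.Separable := (separable_prod_X_sub_C_iff').2 (fun _ _ _ _ h => h)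
    exact this.squarefree
  apply isSemisimple_of_squarefree_aeval_eq_zero hq
  have key : ∀ x ∈ (⨆ μ, F.eigenspace μ : Submodule K V), aeval F q x = 0 := by
    intro x hx
    induction hx using Submodule.iSup_induction' with
    | mem μ x hx =>
      by_cases hx0 : x = 0
      · rw [hx0, map_zero]
      · have hev : F.HasEigenvector μ x := ⟨hx, hx0⟩
        have hmem : μ ∈ F.charpoly.roots.toFinset := by
          rw [Multiset.mem_toFinset, mem_roots F.charpoly_monic.ne_zero]
          exact (hasEigenvalue_iff_isRoot_charpoly F μ).1 (hasEigenvalue_of_hasEigenvector hev)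
        rw [aeval_apply_of_hasEigenvector hev]
        have : q.eval μ = 0 := by
          simp only [q, eval_prod]
          apply Finset.prod_eq_zero hmem
          simp
        rw [this, zero_smul]
    | zero => rw [map_zero]
    | add x y _ _ hx hy => rw [map_add, hx, hy, add_zero]
  ext x
  rw [htop] at key
  exact key x Submodule.mem_top

/-- a simple root of the characteristic polynomial has no Jordan block -/
lemma maxGen_eq_gen [FiniteDimensional K V] (F : End K V) (μ : K) (m : ℕ)
    (hm : F.charpoly.rootMultiplicity μ ≤ m) : F.maxGenEigenspace μ = F.genEigenspace μ m := by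
  apply le_antisymm _ <| (F.genEigenspace μ).monotone le_top
  intro x hx
  rw [mem_genEigenspace_nat, LinearMap.mem_ker]
  set W := F.maxGenEigenspace μ with hW
  set D : End K V := F - μ • 1 with hD
  have hWD : ∀ y ∈ W, D y ∈ W := by
    intro y hy
    rw [hW, mem_maxGenEigenspace] at hy ⊢
    obtain ⟨k, hk⟩ := hy
    refine ⟨k, ?_⟩
    rw [← hD] at hk ⊢
    rw [← Module.End.mul_apply, ← pow_succ, pow_succ', Module.End.mul_apply, hk, map_zero]
  have hnil : IsNilpotent (D.restrict hWD) := by
    refine ⟨finrank K V, ?_⟩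
    ext y
    rw [LinearMap.zero_apply, Module.End.pow_restrict]
    have hy : (y : V) ∈ F.genEigenspace μ (finrank K V) := by
      rw [← maxGenEigenspace_eq_genEigenspace_finrank]
      exact y.2
    rw [mem_genEigenspace_nat, LinearMap.mem_ker] at hy
    exact hy
  have hch := hnil.charpoly_eq_X_pow_finrank
  have hCH := LinearMap.aeval_self_charpoly (D.restrict hWD)
  rw [hch, map_pow, aeval_X] at hCH
  have hfin : finrank K W ≤ m := by
    rw [hW, LinearMap.finrank_maxGenEigenspace_eq]
    exact hm
  obtain ⟨l, hl⟩ := Nat.exists_eq_add_of_le' hfin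
  have h1 : (D.restrict hWD ^ m) ⟨x, hx⟩ = 0 := by
    rw [hl, pow_add, hCH, mul_zero, LinearMap.zero_apply]
  rw [Module.End.pow_restrict] at h1
  exact congrArg Subtype.val h1

/-- The Jordan blocks of `F` for `μ` are not bigger than those of `F ^ n` for `μ ^ n`. -/
lemma maxGen_of_pow [CharZero K] (F : End K V) (μ : K) (hμ : μ ≠ 0) (n : ℕ) (hn : 0 < n) (m : ℕ)
    (h : ∀ x ∈ (F ^ n).maxGenEigenspace (μ ^ n), ((F ^ n - μ ^ n • (1 : End K V)) ^ m) x = 0) :
    F.maxGenEigenspace μ = F.genEigenspace μ m := by
  apply le_antisymm _ <| (F.genEigenspace μ).monotone le_top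
  intro x hx
  rw [mem_genEigenspace_nat, LinearMap.mem_ker]
  obtain ⟨k, hk⟩ := (mem_maxGenEigenspace F μ x).1 hx
  set D : End K V := F - μ • 1 with hD
  -- the polynomial `X ^ n - μ ^ n = (X - μ) R`
  obtain ⟨R, hR⟩ : (X - C μ) ∣ (X ^ n - C (μ ^ n) : K[X]) := by
    rw [C_pow]
    exact sub_dvd_pow_sub_pow X (C μ) n
  have hRμ : R.eval μ ≠ 0 := by
    have h1 := congrArg derivative hR
    have h2 := congrArg (eval μ) h1
    simp only [derivative_sub, derivative_X_pow, derivative_C, sub_zero, derivative_mul,
      derivative_X, one_mul, eval_mul, eval_add, eval_sub, eval_X, eval_C, sub_self, zero_mul,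
      add_zero, eval_natCast, eval_pow, map_natCast] at h2
    rw [← h2]
    exact mul_ne_zero (by exact_mod_cast hn.ne') (pow_ne_zero _ hμ)
  have hDa : aeval F (X - C μ) = D := by
    rw [map_sub, aeval_X, aeval_C, hD, Algebra.algebraMap_eq_smul_one]
  have hFn : F ^ n - μ ^ n • (1 : End K V) = aeval F R * D := by
    have h1 := congrArg (aeval F) hR
    rw [mul_comm, map_mul, hDa, map_sub, map_pow, aeval_X, aeval_C,
      Algebra.algebraMap_eq_smul_one] at h1
    exact h1
  have hcomm : Commute (aeval F R) D := by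
    rw [← hDa]
    unfold Commute SemiconjBy
    rw [← map_mul, mul_comm, map_mul]
  have hpow : ∀ i : ℕ, ∀ y, ((F ^ n - μ ^ n • (1 : End K V)) ^ i) y =
      (aeval F (R ^ i)) ((D ^ i) y) := by
    intro i y
    rw [hFn, hcomm.mul_pow, Module.End.mul_apply, map_pow]
  have hx2 : x ∈ (F ^ n).maxGenEigenspace (μ ^ n) := by
    rw [mem_maxGenEigenspace]
    refine ⟨k, ?_⟩
    rw [hpow, hk, map_zero]
  have h3 := h x hx2
  rw [hpow] at h3
  have hcop : IsCoprime ((X - C μ) ^ k) (R ^ m) := by
    apply IsCoprime.pow
    rw [(irreducible_X_sub_C μ).coprime_iff_not_dvd, dvd_iff_isRoot]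
    exact hRμ
  obtain ⟨u, v, huv⟩ := hcop
  have h4 := congrArg (fun l : K[X] => (aeval F l) ((D ^ m) x)) huv
  simp only [map_add, map_mul, map_one, LinearMap.add_apply, Module.End.mul_apply,
    Module.End.one_apply] at h4
  rw [h3, map_zero, add_zero, map_pow (aeval F) (X - C μ) k, hDa] at h4
  have h5 : (D ^ k) ((D ^ m) x) = 0 := by
    rw [← Module.End.mul_apply, ← pow_add, add_comm, pow_add, Module.End.mul_apply, hk, map_zero]
  rw [h5, map_zero] at h4
  exact h4.symm

end Pool.Agent.D0H7.FR
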