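import Pool.Agent.D0H7.FR.Slope
import Pool.Agent.D0H7.FR.Ss
import Pool.Agent.D0H7.FR.Block

set_option autoImplicit false

namespace Pool.Agent.D0H7.FR

open Polynomial Module Module.End

/-- Every edge of the Newton polygon (with respect to `q = p ^ a`) with a slope `s < w / 2` has a length
smaller than `2 m`, where `m` is the smallest positive integer with `a s m` integral (it is a multiple of
`m`, hence the length is `m`). -/
def SimpleSlopes (p : ℕ) [Fact p.Prime] (a w : ℕ) (P : ℤ[X]) : Prop :=
  ∀ s : ℚ, 2 * s < w → ∀ m : ℕ, 0 < m → (∃ n : ℤ, a * s * m = n) → slopeMult p a P s < 2 * m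

/-- `B` is the form `x y L ^ (dim X - w)` on `V = H^w(X)`, where `L` is the class of a hyperplane
section of the smooth projective variety `X` of dimension at least `w`: it is perfect (hard Lefschetz),
symmetric if `w` is even, alternating if `w` is odd, and the Frobenius `F` multiplies it by `q ^ w`,
`q = p ^ a`. -/
structure Polarised (p a w : ℕ) {K V : Type*} [Field K] [AddCommGroup V] [Module K V]
    (F : End K V) (B : LinearMap.BilinForm K V) : Prop where
  symm : ∀ x y, B x y = (-1) ^ w * B y x
  perfect : ∀ x, (∀ y, B x y = 0) → x = 0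
  frob : ∀ x y, B (F x) (F y) = (p : K) ^ (a * w) * B x y

/-- `N` is a subspace of `V = H^{2 k}(X)` spanned by classes of algebraic cycles, so that a power
`F ^ s` acts on `N` as multiplication by `q ^ (k s)`, `q = p ^ a`, on which the form `B` is
nondegenerate. For `k = 1` one can take all divisor classes (Hodge index theorem). -/
structure AlgClasses (p a k : ℕ) {K V : Type*} [Field K] [AddCommGroup V] [Module K V]
    (F : End K V) (B : LinearMap.BilinForm K V) (N : Submodule K V) : Prop where
  tate : ∃ s : ℕ, 0 < s ∧ ∀ x ∈ N, (F ^ s) x = (p : K) ^ (a * k * s) • x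
  index : ∀ x ∈ N, (∀ y ∈ N, B x y = 0) → x = 0

/-- `U` is the cohomology of degree `w` of a complete variety over the field with `q = p ^ a` elements
with the Frobenius `Φ`, and `π` is a map from `U` to the cohomology `V` of degree `w` of a smooth
projective variety with the Frobenius `F`; the kernel of `π` is the part of `U` of weight less
than `w`. -/
structure LowerWeights (p a w : ℕ) {K V U : Type*} [Field K] [AddCommGroup V] [Module K V]
    [AddCommGroup U] [Module K U] (F : End K V) (Φ : End K U) (π : U →ₗ[K] V) : Prop where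
  equivariant : ∀ u, π (Φ u) = F (π u)
  weights : ∃ Q : ℤ[X], Q.Monic ∧ (∀ z : ℂ, aeval z Q = 0 → ‖z‖ ^ 2 < (p : ℝ) ^ (a * w)) ∧
    ∀ u ∈ LinearMap.ker π, aeval Φ Q u = 0

section

variable {p : ℕ} [Fact p.Prime] {a w : ℕ} {h : ℕ → ℕ} {P : ℤ[X]}
  {K V : Type*} [Field K] [CharZero K] [AddCommGroup V] [Module K V] [FiniteDimensional K V]
  (F : End K V)

lemma part_slopes (ha : 0 < a) (hP : IsFrobPoly p a w h P)
    (hF : F.charpoly = P.map (Int.castRingHom K)) (α : K) (hα : NonTate p a w α)
    (hev : F.HasEigenvalue α) :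
    ∃ s : ℚ, 2 * s < w ∧ ∃ m : ℕ, 0 < m ∧ (∃ n : ℤ, a * s * m = n) ∧
      m * finrank K (F.maxGenEigenspace α) ≤ slopeMult p a P s := by
  have hroot : aeval α P = 0 := by
    have := (hasEigenvalue_iff_isRoot_charpoly F α).1 hev
    rw [hF] at this
    unfold IsRoot at this
    rw [eval_map] at this
    exact this
  rw [LinearMap.finrank_maxGenEigenspace_eq, hF]
  exact slope_bound ha hP α hα hroot

lemma part_hodge (hP : IsFrobPoly p a w h P)
    (hF : F.charpoly = P.map (Int.castRingHom K)) (s : Finset K)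
    (hs : ∀ α ∈ s, NonTate p a w α)
    (hinj : ∀ α ∈ s, ∀ β ∈ s, minpoly ℤ α = minpoly ℤ β → α = β) :
    ∑ α ∈ s, finrank K (F.maxGenEigenspace α) ≤ a * width w h ∧
      (Even (a * w) → 2 * ∑ α ∈ s, finrank K (F.maxGenEigenspace α) ≤ a * width w h) := by
  simp only [LinearMap.finrank_maxGenEigenspace_eq, hF]
  constructor
  · have := fam_bound hP 1 (fun f hf _ => gap_one p hf) s hs hinj
    rwa [one_mul] at this
  · intro haw
    exact fam_bound hP 2 (fun f hf _ => gap_two p haw hf) s hs hinj

lemma part_simple (ha : 0 < a) (hP : IsFrobPoly p a w h P)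
    (hF : F.charpoly = P.map (Int.castRingHom K))
    (hsmall : SimpleSlopes p a w P ∨ a * width w h ≤ 1 ∨ (Even (a * w) ∧ a * width w h ≤ 2))
    (α : K) (hα : NonTate p a w α) : F.maxGenEigenspace α = F.eigenspace α := by
  have hle : F.charpoly.rootMultiplicity α ≤ 1 := by
    rw [← LinearMap.finrank_maxGenEigenspace_eq]
    have hsingle := part_hodge F hP hF {α} (by simpa using hα) (by simp)
    rw [Finset.sum_singleton] at hsingle
    rcases hsmall with h1 | h1 | ⟨h1, h2⟩
    · by_cases hev : F.HasEigenvalue α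
      · obtain ⟨s, hs, m, hm, hn, hle⟩ := part_slopes F ha hP hF α hα hev
        have h2 := h1 s hs m hm hn
        by_contra hcon
        push Not at hcon
        have h3 : m * 2 ≤ m * finrank K (F.maxGenEigenspace α) := Nat.mul_le_mul_left m hcon
        omega
      · rw [LinearMap.finrank_maxGenEigenspace_eq]
        have : F.charpoly.rootMultiplicity α = 0 := by
          apply rootMultiplicity_eq_zero
          intro h2
          exact hev ((hasEigenvalue_iff_isRoot_charpoly F α).2 h2)
        omega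
    · omega
    · have := hsingle.2 h1
      omega
  exact maxGen_eq_gen F α 1 hle

omit [FiniteDimensional K V] [Fact p.Prime] [CharZero K] in
lemma frob_pow (B : LinearMap.BilinForm K V) (hB : Polarised p a w F B) :
    ∀ m : ℕ, ∀ x y, B ((F ^ m) x) ((F ^ m) y) = ((p : K) ^ (a * w)) ^ m * B x y := by
  intro m
  induction m with
  | zero => intro x y; simp
  | succ m ih =>
    intro x y
    rw [pow_succ', Module.End.mul_apply, Module.End.mul_apply, hB.frob, ih, pow_succ]
    ring

lemma part_parity (B : LinearMap.BilinForm K V) (hB : Polarised p a w F B) (n : ℕ) (c : K)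
    (hc : c ^ 2 = (p : K) ^ (a * w * n)) (j : ℕ) (hj : Odd (w + j)) :
    Even (finrank K ((F ^ n).maxGenEigenspace c) - finrank K ((F ^ n).genEigenspace c j)) := by
  have hp0 : (p : K) ≠ 0 := by exact_mod_cast (Fact.out : p.Prime).ne_zero
  have hc0 : c ≠ 0 := by
    rintro rfl
    rw [zero_pow two_ne_zero] at hc
    exact pow_ne_zero _ hp0 hc.symm
  have hG : ∀ x y, B ((F ^ n) x) ((F ^ n) y) = c ^ 2 * B x y := by
    intro x y
    rw [frob_pow F B hB, hc, ← pow_mul]
  apply parity B ((-1) ^ w) hB.symm hB.perfect (F ^ n) c hc0 hG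
  · have := orth_range B (F ^ n) c hc0 hG
    rwa [Algebra.algebraMap_eq_smul_one] at this
  · rw [← pow_add, add_comm, hj.neg_one_pow]

lemma part_tate (k : ℕ) (B : LinearMap.BilinForm K V) (N : Submodule K V)
    (hB : Polarised p a (2 * k) F B) (hNB : AlgClasses p a k F B N)
    (δ m : ℕ) (hm : 1 ≤ m) (hδ : δ ≤ m ∨ (Even δ ∧ δ ≤ m + 1))
    (hpole : ∀ n : ℕ, 0 < n →
      (F ^ n).charpoly.rootMultiplicity ((p : K) ^ (a * k * n)) ≤ finrank K N + δ)
    (α : K) (hα : ¬ NonTate p a (2 * k) α) : F.maxGenEigenspace α = F.genEigenspace α m := by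
  have hp0 : (p : K) ≠ 0 := by exact_mod_cast (Fact.out : p.Prime).ne_zero
  unfold NonTate at hα
  push Not at hα
  obtain ⟨n₁, hn₁, hα1⟩ := hα
  obtain ⟨s₀, hs₀, hN⟩ := hNB.tate
  have hsymm : ∀ x y, B x y = B y x := by
    intro x y
    rw [hB.symm x y, pow_mul]
    norm_num
  set n := 2 * n₁ * s₀ with hn
  have hn0 : 0 < n := by positivity
  have hαn : α ^ n = (p : K) ^ (a * k * n) := by
    rw [hn, pow_mul α (2 * n₁) s₀, hα1, ← pow_mul]
    congr 1
    ring
  have hα0 : α ≠ 0 := by
    rintro rfl
    rw [zero_pow hn0.ne'] at hαn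
    exact pow_ne_zero _ hp0 hαn.symm
  apply maxGen_of_pow F α hα0 n hn0 m
  rw [hαn]
  apply block_bound B hsymm hB.perfect (F ^ n) ((p : K) ^ (a * k * n)) (pow_ne_zero _ hp0) _ N _
    hNB.index δ m hm hδ (hpole n hn0)
  · intro x y
    rw [frob_pow F B hB, ← pow_mul, ← pow_mul]
    congr 2
    ring
  · intro x hx
    have hall : ∀ m : ℕ, ((F ^ s₀) ^ m) x = ((p : K) ^ (a * k * s₀)) ^ m • x := by
      intro m
      induction m with
      | zero => simp
      | succ m ih =>
        rw [pow_succ, Module.End.mul_apply, hN x hx, map_smul, ih, smul_smul, pow_succ, mul_comm]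
    have h1 : F ^ n = (F ^ s₀) ^ (2 * n₁) := by rw [← pow_mul, hn, mul_comm]
    rw [h1, hall, ← pow_mul]
    congr 2
    rw [hn]
    ring

variable [IsAlgClosed K]

omit [CharZero K] in
lemma isSemisimple_of_all (hall : ∀ α : K, F.maxGenEigenspace α = F.eigenspace α) :
    F.IsSemisimple := by
  apply isSemisimple_of_sq
  intro μ x hx
  have h1 : x ∈ F.maxGenEigenspace μ := by
    rw [mem_maxGenEigenspace]
    refine ⟨2, ?_⟩
    rw [pow_two, Module.End.mul_apply]
    exact hx
  rw [hall, mem_eigenspace_iff] at h1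
  rw [LinearMap.sub_apply, LinearMap.smul_apply, Module.End.one_apply, h1, sub_self]

omit [CharZero K] [FiniteDimensional K V] [IsAlgClosed K] in
lemma sq_of_semisimple {U : Type*} [AddCommGroup U] [Module K U] (Φ : End K U)
    (hΦ : Φ.IsSemisimple) (μ : K) (x : U)
    (hx : (Φ - μ • (1 : End K U)) ((Φ - μ • (1 : End K U)) x) = 0) :
    (Φ - μ • (1 : End K U)) x = 0 := by
  have h1 : x ∈ Φ.maxGenEigenspace μ := by
    rw [mem_maxGenEigenspace]
    refine ⟨2, ?_⟩
    rw [pow_two, Module.End.mul_apply]
    exact hx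
  rw [hΦ.isFinitelySemisimple.maxGenEigenspace_eq_eigenspace, mem_eigenspace_iff] at h1
  rw [LinearMap.sub_apply, LinearMap.smul_apply, Module.End.one_apply, h1, sub_self]

omit [Fact p.Prime] [FiniteDimensional K V] [IsAlgClosed K] in
lemma no_common_root (hP : IsFrobPoly p a w h P) {U : Type*} [AddCommGroup U] [Module K U]
    (Φ : End K U) (π : U →ₗ[K] V) (hU : LowerWeights p a w F Φ π) (μ : K) (hμ : aeval μ P = 0)
    (x : U) (hx : π x = 0) (hΦ : Φ x = μ • x) : x = 0 := by
  by_contra hne
  obtain ⟨Q, hQm, hQz, hQ⟩ := hU.weights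
  have hev : Φ.HasEigenvector μ x := ⟨mem_eigenspace_iff.2 hΦ, hne⟩
  have h3 : aeval μ Q = 0 := by
    have h4 := hQ x (LinearMap.mem_ker.2 hx)
    have h5 : aeval Φ Q = aeval Φ (Q.map (Int.castRingHom K)) := by
      rw [aeval_def, aeval_def, eval₂_map]
      congr 1
      exact RingHom.ext_int _ _
    rw [h5, aeval_apply_of_hasEigenvector hev] at h4
    have h6 := (smul_eq_zero.1 h4).resolve_right hne
    rw [eval_map] at h6
    exact h6
  have hint : IsIntegral ℤ μ := ⟨P, hP.monic, hμ⟩
  obtain ⟨z, hz⟩ := IsAlgClosed.exists_aeval_eq_zero ℂ (minpoly ℤ μ) (by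
    have := minpoly.degree_pos hint
    exact this.ne')
  have hz1 : aeval z P = 0 := by
    obtain ⟨g, hg⟩ := minpoly.isIntegrallyClosed_dvd hint hμ
    rw [hg, map_mul, hz, zero_mul]
  have hz2 : aeval z Q = 0 := by
    obtain ⟨g, hg⟩ := minpoly.isIntegrallyClosed_dvd hint h3
    rw [hg, map_mul, hz, zero_mul]
  have h7 := hP.weil z hz1
  have h8 := hQz z hz2
  linarith

omit [CharZero K] [IsAlgClosed K] in
lemma root_of_eigenvalue (hF : F.charpoly = P.map (Int.castRingHom K)) (μ : K)
    (hev : F.HasEigenvalue μ) : aeval μ P = 0 := by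
  have h6 := (hasEigenvalue_iff_isRoot_charpoly F μ).1 hev
  rw [hF] at h6
  unfold IsRoot at h6
  rw [eval_map] at h6
  exact h6

omit [Fact p.Prime] [IsAlgClosed K] in
/-- Jordan blocks of weight `w` of complete varieties -/
lemma complete_blocks (hP : IsFrobPoly p a w h P)
    (hF : F.charpoly = P.map (Int.castRingHom K))
    {U : Type*} [AddCommGroup U] [Module K U] (Φ : End K U) (π : U →ₗ[K] V)
    (hU : LowerWeights p a w F Φ π) (α : K) (hev : F.HasEigenvalue α) (m : ℕ)
    (hm : F.maxGenEigenspace α = F.genEigenspace α m) :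
    Φ.maxGenEigenspace α = Φ.genEigenspace α m := by
  apply le_antisymm _ <| (Φ.genEigenspace α).monotone le_top
  intro x hx
  rw [mem_genEigenspace_nat, LinearMap.mem_ker]
  obtain ⟨k, hk⟩ := (mem_maxGenEigenspace Φ α x).1 hx
  set D : End K U := Φ - α • 1 with hD
  have hπD : ∀ u, π (D u) = (F - α • (1 : End K V)) (π u) := by
    intro u
    simp only [hD, LinearMap.sub_apply, LinearMap.smul_apply, Module.End.one_apply, map_sub,
      map_smul, hU.equivariant]
  have hπ : ∀ i : ℕ, ∀ u, π ((D ^ i) u) = ((F - α • (1 : End K V)) ^ i) (π u) := by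
    intro i
    induction i with
    | zero => intro u; simp
    | succ i ih =>
      intro u
      rw [pow_succ, Module.End.mul_apply, ih, hπD, pow_succ, Module.End.mul_apply]
  have h1 : π x ∈ F.maxGenEigenspace α := by
    rw [mem_maxGenEigenspace]
    exact ⟨k, by rw [← hπ, hk, map_zero]⟩
  rw [hm, mem_genEigenspace_nat, LinearMap.mem_ker] at h1
  have h2 : π ((D ^ m) x) = 0 := by rw [hπ, h1]
  have hinj : ∀ k : ℕ, ∀ y, π y = 0 → (D ^ k) y = 0 → y = 0 := by
    intro k
    induction k with
    | zero => intro y _ h0; simpa using h0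
    | succ k ih =>
      intro y hy h0
      rw [pow_succ, Module.End.mul_apply] at h0
      have h3 := ih (D y) (by rw [hπD, hy, map_zero]) h0
      apply no_common_root F hP Φ π hU α (root_of_eigenvalue F hF α hev) y hy
      rw [hD, LinearMap.sub_apply, LinearMap.smul_apply, Module.End.one_apply] at h3
      exact sub_eq_zero.1 h3
  apply hinj k _ h2
  rw [← Module.End.mul_apply, ← pow_add, add_comm, pow_add, Module.End.mul_apply, hk, map_zero]

omit [Fact p.Prime] in
/-- the passage to complete varieties -/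
lemma complete_semisimple (hP : IsFrobPoly p a w h P)
    (hF : F.charpoly = P.map (Int.castRingHom K)) (hss : F.IsSemisimple)
    {U : Type*} [AddCommGroup U] [Module K U] [FiniteDimensional K U] (Φ : End K U) (π : U →ₗ[K] V)
    (hU : LowerWeights p a w F Φ π)
    (hker : ∀ (hst : ∀ u ∈ LinearMap.ker π, Φ u ∈ LinearMap.ker π),
      Module.End.IsSemisimple (Φ.restrict hst)) : Φ.IsSemisimple := by
  have hst : ∀ u ∈ LinearMap.ker π, Φ u ∈ LinearMap.ker π := by
    intro u hu
    rw [LinearMap.mem_ker] at hu ⊢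
    rw [hU.equivariant, hu, map_zero]
  have hker := hker hst
  apply isSemisimple_of_sq
  intro μ u hu
  set D : End K U := Φ - μ • (1 : End K U) with hD
  have hπD : ∀ u, π (D u) = (F - μ • (1 : End K V)) (π u) := by
    intro u
    simp only [hD, LinearMap.sub_apply, LinearMap.smul_apply, Module.End.one_apply, map_sub,
      map_smul, hU.equivariant]
  have hDu : (F - μ • (1 : End K V)) (π u) = 0 := by
    apply sq_of_semisimple F hss
    rw [← hπD, ← hπD, hu, map_zero]
  by_cases hu0 : π u = 0
  · -- the vector is in the kernel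
    let y : LinearMap.ker π := ⟨u, LinearMap.mem_ker.2 hu0⟩
    have h1 : ((Φ.restrict hst) - μ • (1 : End K (LinearMap.ker π)))
        (((Φ.restrict hst) - μ • (1 : End K (LinearMap.ker π))) y) = 0 := by
      apply Subtype.ext
      exact hu
    have h2 := sq_of_semisimple (Φ.restrict hst) hker μ y h1
    exact congrArg Subtype.val h2
  · -- weights
    have h5 : F.HasEigenvector μ (π u) := by
      refine ⟨mem_eigenspace_iff.2 ?_, hu0⟩
      rw [LinearMap.sub_apply, LinearMap.smul_apply, Module.End.one_apply] at hDu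
      exact sub_eq_zero.1 hDu
    apply no_common_root F hP Φ π hU μ
      (root_of_eigenvalue F hF μ (hasEigenvalue_of_hasEigenvector h5)) (D u)
    · rw [hπD, hDu]
    · have := hu
      rw [hD, LinearMap.sub_apply, LinearMap.smul_apply, Module.End.one_apply, ← hD] at this
      exact sub_eq_zero.1 this

end

end Pool.Agent.D0H7.FR
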