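import Mathlib

set_option autoImplicit false

namespace Pool.Agent.D0H7.FR

open Module Module.End Submodule

section Orth

variable {K V : Type*} [Field K] [CharZero K] [AddCommGroup V] [Module K V] [FiniteDimensional K V]

omit [CharZero K] in
/-- projection to a subspace on which the form is nondegenerate -/
lemma exists_proj (B : LinearMap.BilinForm K V) (N : Submodule K V)
    (hN : ∀ x ∈ N, (∀ y ∈ N, B x y = 0) → x = 0) (v : V) :
    ∃ ν ∈ N, ∀ y ∈ N, B (v - ν) y = 0 := by
  let φ : N →ₗ[K] Module.Dual K N := B.domRestrict₁₂ N N
  have hinj : Function.Injective φ := by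
    rw [injective_iff_map_eq_zero]
    intro x hx
    apply Subtype.ext
    apply hN x x.2
    intro y hy
    have := congrArg (fun l => l ⟨y, hy⟩) hx
    exact this
  have hsurj : Function.Surjective φ :=
    (LinearMap.injective_iff_surjective_of_finrank_eq_finrank
      (Subspace.dual_finrank_eq (K := K) (V := N)).symm).1 hinj
  obtain ⟨ν, hν⟩ := hsurj ((B v).domRestrict N)
  refine ⟨ν, ν.2, ?_⟩
  intro y hy
  have := congrArg (fun l => l ⟨y, hy⟩) hν
  have h1 : B ν y = B v y := this
  rw [map_sub, LinearMap.sub_apply, h1, sub_self]

variable (B : LinearMap.BilinForm K V) (G : End K V) (c : K) (hc : c ≠ 0)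
  (hG : ∀ x y, B (G x) (G y) = c ^ 2 * B x y)

omit [CharZero K] [FiniteDimensional K V] in
include hG hc in
lemma adj (x y : V) : B x ((G - algebraMap K (End K V) c) y) =
    -(c⁻¹ * B ((G - algebraMap K (End K V) c) x) (G y)) := by
  simp only [LinearMap.sub_apply, Module.algebraMap_end_apply, map_sub, map_smul, smul_eq_mul,
    LinearMap.smul_apply]
  rw [hG]
  field_simp
  ring

omit [CharZero K] [FiniteDimensional K V] in
include hG hc in
lemma orth_range (k : ℕ) : ∀ x, ((G - algebraMap K (End K V) c) ^ k) x = 0 →
    ∀ y, B x (((G - algebraMap K (End K V) c) ^ k) y) = 0 := by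
  induction k with
  | zero =>
    intro x hx y
    have : x = 0 := by simpa using hx
    rw [this, map_zero, LinearMap.zero_apply]
  | succ k ih =>
    intro x hx y
    rw [pow_succ', Module.End.mul_apply, adj B G c hc hG]
    have h1 : ((G - algebraMap K (End K V) c) ^ k) ((G - algebraMap K (End K V) c) x) = 0 := by
      rw [← Module.End.mul_apply, ← pow_succ]; exact hx
    have h2 : G (((G - algebraMap K (End K V) c) ^ k) y) =
        ((G - algebraMap K (End K V) c) ^ k) (G y) := by
      have hcomm : Commute G ((G - algebraMap K (End K V) c) ^ k) := by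
        apply Commute.pow_right
        apply Commute.sub_right (Commute.refl G)
        exact (Algebra.commutes c G).symm
      have := congrArg (fun l : End K V => l y) hcomm.eq
      exact this
    rw [h2, ih _ h1, mul_zero, neg_zero]

end Orth

end Pool.Agent.D0H7.FR
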