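import Pool.Agent.D0H7.FR.Poly

set_option autoImplicit false

namespace Pool.Agent.D0H7.FR

open Polynomial Finset

section Slopes

variable (p : ℕ) [Fact p.Prime]

lemma G_multiset {r : ℝ} (hr : 0 < r) (s : Multiset (PadicAlgCl p)) :
    G p r (s.map fun x => X - C x).prod = (s.map fun x => max ‖x‖ r).prod := by
  induction s using Multiset.induction with
  | empty =>
    simp only [Multiset.map_zero, Multiset.prod_zero]
    have := G_pow p hr 1 0
    rwa [pow_zero, pow_zero] at this
  | cons x s ih =>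
    simp only [Multiset.map_cons, Multiset.prod_cons]
    rw [G_mul p hr, G_X_sub_C p hr, ih]

end Slopes

section Kronecker

lemma integral_of_dvd {Om : Type*} [Field Om] [CharZero Om] (s α : Om) (N : ℤ) (hs : s ^ 2 = N)
    (hN : N ≠ 0) (f : ℤ[X]) (hf : f.Monic) (h : aeval α f = 0)
    (hd : ∀ i ≤ f.natDegree, N ^ (f.natDegree - i) ∣ (f.coeff i) ^ 2) :
    IsIntegral ℤ (α / s) := by
  have hNOm : (N : Om) ≠ 0 := by exact_mod_cast hN
  have hs0 : s ≠ 0 := by
    rintro rfl
    rw [zero_pow two_ne_zero] at hs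
    exact hNOm hs.symm
  set d := f.natDegree with hdd
  let g : Om[X] := ∑ i ∈ range (d + 1), monomial i ((f.coeff i : Om) / s ^ (d - i))
  have hgc : ∀ i, g.coeff i = if i ≤ d then (f.coeff i : Om) / s ^ (d - i) else 0 := by
    intro i
    simp only [g, finsetSum_coeff, coeff_monomial]
    rw [Finset.sum_ite_eq']
    simp only [mem_range]
    congr 1
    simp
  have hint : ∀ i, IsIntegral ℤ (g.coeff i) := by
    intro i
    rw [hgc]
    split_ifs with hi
    · obtain ⟨m, hm⟩ := hd i hi
      apply IsIntegral.of_pow (n := 2) two_pos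
      have : ((f.coeff i : Om) / s ^ (d - i)) ^ 2 = (m : Om) := by
        rw [div_pow, ← pow_mul, mul_comm (d - i) 2, pow_mul, hs]
        have h1 : ((f.coeff i : Om)) ^ 2 = (N : Om) ^ (d - i) * m := by
          exact_mod_cast congrArg (Int.cast : ℤ → Om) hm
        rw [h1]
        field_simp
      rw [this]
      exact isIntegral_algebraMap (R := ℤ) (x := m)
    · exact isIntegral_zero
  have hgm : g.Monic := by
    have hdeg : g.natDegree ≤ d := by
      rw [natDegree_le_iff_coeff_eq_zero]
      intro i hi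
      rw [hgc, if_neg (by omega)]
    apply monic_of_natDegree_le_of_coeff_eq_one d hdeg
    rw [hgc, if_pos le_rfl, Nat.sub_self, pow_zero, div_one, hdd, hf.coeff_natDegree, Int.cast_one]
  have hev : g.eval (α / s) = 0 := by
    have h1 : g.eval (α / s) = ∑ i ∈ range (d + 1), (f.coeff i : Om) / s ^ (d - i) * (α / s) ^ i := by
      simp only [g, eval_finsetSum, eval_monomial]
    rw [h1]
    have h2 : ∀ i ∈ range (d + 1), (f.coeff i : Om) / s ^ (d - i) * (α / s) ^ i =
        (f.coeff i : Om) * α ^ i * (s ^ d)⁻¹ := by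
      intro i hi
      have : i ≤ d := Nat.lt_succ_iff.1 (mem_range.1 hi)
      rw [div_pow]
      have h3 : s ^ d = s ^ (d - i) * s ^ i := by rw [← pow_add]; congr 1; omega
      rw [h3]
      field_simp
    rw [sum_congr rfl h2, ← sum_mul]
    have h4 : ∑ i ∈ range (d + 1), (f.coeff i : Om) * α ^ i = 0 := by
      rw [aeval_eq_sum_range] at h
      rw [← h]
      apply sum_congr rfl
      intro i _
      rw [zsmul_eq_mul]
    rw [h4, zero_mul]
  have hlift : g ∈ lifts (algebraMap (integralClosure ℤ Om) Om) := by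
    rw [lifts_iff_coeff_lifts]
    intro i
    exact ⟨⟨g.coeff i, hint i⟩, rfl⟩
  obtain ⟨q, hq1, -, hq2⟩ := lifts_and_natDegree_eq_and_monic hlift hgm
  have hx : IsIntegral (integralClosure ℤ Om) (α / s) := by
    refine ⟨q, hq2, ?_⟩
    rw [← eval_map, hq1, hev]
  exact isIntegral_trans (R := ℤ) (A := integralClosure ℤ Om) _ hx

lemma kronecker {K : Type*} [Field K] [CharZero K] (N : ℕ) (hN : 0 < N) (α : K)
    (f : ℤ[X]) (hf : f.Monic) (h : aeval α f = 0)
    (hd : ∀ i ≤ f.natDegree, (N : ℤ) ^ (f.natDegree - i) ∣ (f.coeff i) ^ 2)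
    (hz : ∀ z : ℂ, aeval z f = 0 → ‖z‖ ^ 2 = N) :
    ∃ n : ℕ, 0 < n ∧ α ^ (2 * n) = (N : K) ^ n := by
  have hint : IsIntegral ℚ α := by
    refine ⟨f.map (Int.castRingHom ℚ), hf.map _, ?_⟩
    rw [eval₂_map]
    have : (algebraMap ℚ K).comp (Int.castRingHom ℚ) = algebraMap ℤ K := RingHom.ext_int _ _
    rw [this]
    exact h
  let L := IntermediateField.adjoin ℚ {α}
  have : FiniteDimensional ℚ L := IntermediateField.adjoin.finiteDimensional hint
  have : NumberField L := ⟨⟩
  let g : L := IntermediateField.AdjoinSimple.gen ℚ α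
  have hg : (algebraMap L K) g = α := IntermediateField.AdjoinSimple.algebraMap_gen ℚ α
  have hNL : (N : L) ≠ 0 := by exact_mod_cast hN.ne'
  have hfg : aeval g f = 0 := by
    apply (algebraMap L K).injective
    rw [map_zero, ← aeval_algebraMap_apply, hg, h]
  let Om := AlgebraicClosure L
  obtain ⟨s, hs⟩ := IsAlgClosed.exists_pow_nat_eq ((N : ℤ) : Om) (n := 2) two_pos
  have hx : IsIntegral ℤ (g ^ 2 / (N : L)) := by
    have h1 : IsIntegral ℤ ((algebraMap L Om g) / s) := by
      apply integral_of_dvd s _ (N : ℤ) hs (by exact_mod_cast hN.ne') f hf _ hd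
      rw [aeval_algebraMap_apply, hfg, map_zero]
    have h2 : IsIntegral ℤ (((algebraMap L Om g) / s) ^ 2) := h1.pow 2
    have h3 : ((algebraMap L Om g) / s) ^ 2 = algebraMap L Om (g ^ 2 / (N : L)) := by
      rw [div_pow, hs, map_div₀, map_pow, map_natCast, Int.cast_natCast]
    rw [h3] at h2
    exact (isIntegral_algebraMap_iff (algebraMap L Om).injective).1 h2
  have hnorm : ∀ φ : L →+* ℂ, ‖φ (g ^ 2 / (N : L))‖ = 1 := by
    intro φ
    rw [map_div₀, map_pow, map_natCast, norm_div, norm_pow]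
    have h1 : aeval (φ g) f = 0 := by
      have h2 := congrArg φ hfg
      rw [map_zero, aeval_def, hom_eval₂] at h2
      rw [aeval_def]
      rw [← h2]
      congr 1
      exact RingHom.ext_int _ _
    rw [hz _ h1, Complex.norm_natCast]
    exact div_self (by exact_mod_cast hN.ne')
  obtain ⟨n, hn, hn1⟩ := NumberField.Embeddings.pow_eq_one_of_norm_eq_one L ℂ hx hnorm
  refine ⟨n, hn, ?_⟩
  have h4 : g ^ (2 * n) = (N : L) ^ n := by
    rw [div_pow, div_eq_one_iff_eq (pow_ne_zero _ hNL), ← pow_mul] at hn1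
    exact hn1
  have h5 := congrArg (algebraMap L K) h4
  rw [map_pow, map_pow, map_natCast, hg] at h5
  exact h5

end Kronecker

end Pool.Agent.D0H7.FR
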