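import Mathlib

set_option autoImplicit false

namespace Pool.Agent.D0H7.FR

open Polynomial Finset

/-- The Hodge polygon: the sum of the `k` smallest slopes, where the slopes are `0, …, w` with the
multiplicities `h 0, …, h w`. -/
def hodgePolygon (w : ℕ) (h : ℕ → ℕ) (k : ℕ) : ℕ :=
  ∑ j ∈ range w, (k - ∑ i ∈ range (j + 1), h i)

/-- `∑_{j < w / 2} (w - 2 j) h j`. -/
def width (w : ℕ) (h : ℕ → ℕ) : ℕ := ∑ j ∈ range w, (w - 2 * j) * h j

lemma width_aux (w : ℕ) (h : ℕ → ℕ) (k : ℕ) : ∀ m : ℕ, 2 * m ≤ w + 1 →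
    2 * (m : ℤ) * k + ((w : ℤ) - 2 * m) * (∑ i ∈ range m, h i : ℕ) ≤
      (∑ j ∈ range m, (w - 2 * j) * h j : ℕ) +
        2 * (∑ j ∈ range m, (k - ∑ i ∈ range (j + 1), h i) : ℕ) := by
  intro m
  induction m with
  | zero => intro _; simp
  | succ m ih =>
    intro hm
    have h0 := ih (by omega)
    rw [sum_range_succ (fun j => (w - 2 * j) * h j), sum_range_succ (fun j => k - _),
      sum_range_succ h]
    set H := ∑ i ∈ range m, h i
    set A := ∑ j ∈ range m, (w - 2 * j) * h j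
    set B := ∑ j ∈ range m, (k - ∑ i ∈ range (j + 1), h i)
    have h1 : ((w - 2 * m : ℕ) : ℤ) = (w : ℤ) - 2 * m := by omega
    have h2 : (k : ℤ) - (H + h m) ≤ ((k - (H + h m) : ℕ) : ℤ) := by omega
    push_cast at h0 ⊢
    rw [h1]
    nlinarith

lemma width_le (w : ℕ) (h : ℕ → ℕ) (k : ℕ) :
    w * k ≤ width w h + 2 * hodgePolygon w h k := by
  unfold width hodgePolygon
  rcases Nat.even_or_odd' w with ⟨m, hm | hm⟩
  · have h0 := width_aux w h k m (by omega)
    have h1 : ∑ j ∈ range m, (w - 2 * j) * h j ≤ ∑ j ∈ range w, (w - 2 * j) * h j :=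
      sum_le_sum_of_subset (range_subset_range.2 (by omega))
    have h2 : ∑ j ∈ range m, (k - ∑ i ∈ range (j + 1), h i) ≤
        ∑ j ∈ range w, (k - ∑ i ∈ range (j + 1), h i) :=
      sum_le_sum_of_subset (range_subset_range.2 (by omega))
    have h3 : (w : ℤ) = 2 * m := by exact_mod_cast hm
    have h4 : (w : ℤ) - 2 * m = 0 := by omega
    rw [h4, zero_mul, add_zero, ← h3] at h0
    zify
    zify at h1 h2
    push_cast at h0 h1 h2 ⊢
    linarith
  · have h0 := width_aux w h k m (by omega)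
    have h1 : ∑ j ∈ range (m + 1), (w - 2 * j) * h j ≤ ∑ j ∈ range w, (w - 2 * j) * h j :=
      sum_le_sum_of_subset (range_subset_range.2 (by omega))
    have h2 : ∑ j ∈ range (m + 1), (k - ∑ i ∈ range (j + 1), h i) ≤
        ∑ j ∈ range w, (k - ∑ i ∈ range (j + 1), h i) :=
      sum_le_sum_of_subset (range_subset_range.2 (by omega))
    have h3 : (w : ℤ) = 2 * m + 1 := by exact_mod_cast hm
    have h4 : (w : ℤ) - 2 * m = 1 := by omega
    rw [h4, one_mul] at h0
    rw [sum_range_succ] at h1 h2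
    have h5 : w - 2 * m = 1 := by omega
    rw [h5, one_mul] at h1
    rw [sum_range_succ h] at h2
    have h6 : (w : ℤ) * k = 2 * m * k + k := by rw [h3]; ring
    have h7 : (k : ℤ) ≤ ((∑ i ∈ range m, h i : ℕ) : ℤ) + h m +
        2 * ((k - (∑ i ∈ range m, h i + h m) : ℕ) : ℤ) := by omega
    zify
    zify at h1 h2
    push_cast at h0 h1 h2 h7 ⊢
    have h8 : (((k - (∑ i ∈ range m, h i + h m) : ℕ) : ℤ)) =
      (((k - (∑ i ∈ range m, h i + h m) : ℕ) : ℤ)) := rfl
    linarith

/-- The characteristic polynomial `P` of Frobenius on the cohomology of degree `w` of a smooth proper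
variety over the field with `p ^ a` elements, with `b = natDegree P` and Hodge numbers
`h j = h^{j, w - j}`: the roots are Weil numbers of weight `w` (Deligne) and the Newton polygon lies
above the Hodge polygon (Mazur, Ogus). -/
structure IsFrobPoly (p a w : ℕ) (h : ℕ → ℕ) (P : ℤ[X]) : Prop where
  monic : P.Monic
  weil : ∀ z : ℂ, aeval z P = 0 → ‖z‖ ^ 2 = (p : ℝ) ^ (a * w)
  mazur : ∀ k ≤ P.natDegree,
    (p : ℤ) ^ (a * hodgePolygon w h k) ∣ P.coeff (P.natDegree - k)

section Gauss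

variable (p : ℕ) [Fact p.Prime]

/-- the absolute value of the algebraic closure of the `p`-adic numbers -/
noncomputable def av : AbsoluteValue (PadicAlgCl p) ℝ :=
  IsAbsoluteValue.toAbsoluteValue (norm : PadicAlgCl p → ℝ)

lemma av_apply (x : PadicAlgCl p) : av p x = ‖x‖ := rfl

lemma av_int (c : ℤ) : av p (c : PadicAlgCl p) = ‖(c : ℚ_[p])‖ := by
  rw [av_apply, ← PadicAlgCl.norm_extends]
  congr 1

lemma av_na : IsNonarchimedean (av p) := PadicAlgCl.isNonarchimedean p

/-- the Gauss norm with radius `r` -/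
noncomputable def G (r : ℝ) (P : (PadicAlgCl p)[X]) : ℝ := P.gaussNorm (av p) r

lemma G_mul {r : ℝ} (hr : 0 < r) (P Q : (PadicAlgCl p)[X]) : G p r (P * Q) = G p r P * G p r Q :=
  gaussNorm_mul (av_na p) hr P Q

lemma G_pow {r : ℝ} (hr : 0 < r) (P : (PadicAlgCl p)[X]) (n : ℕ) :
    G p r (P ^ n) = G p r P ^ n := by
  induction n with
  | zero =>
    rw [pow_zero, pow_zero]
    have := gaussNorm_C (av p) r (1 : PadicAlgCl p)
    rw [C_1] at this
    unfold G
    rw [this]
    exact (av p).map_one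
  | succ n ih => rw [pow_succ, G_mul p hr, ih, pow_succ]

lemma G_lower {r : ℝ} (hr : 0 < r) {P : (PadicAlgCl p)[X]} (hP : P.Monic) :
    r ^ P.natDegree ≤ G p r P := by
  have := P.le_gaussNorm (av p) hr.le P.natDegree
  rw [hP.coeff_natDegree, (av p).map_one, one_mul] at this
  exact this

lemma G_X_sub_C {r : ℝ} (hr : 0 < r) (x : PadicAlgCl p) :
    G p r (X - C x) = max ‖x‖ r := by
  apply le_antisymm
  · obtain ⟨i, hi⟩ := (X - C x).exists_eq_gaussNorm (av p) r
    unfold G
    rw [hi]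
    rcases i with _ | _ | i
    · simp [av_apply]
    · simp [coeff_X]
    · have h0 : (X - C x : (PadicAlgCl p)[X]).coeff (i + 2) = 0 := by
        rw [coeff_sub, coeff_X, coeff_C]; simp
      rw [h0, (av p).map_zero, zero_mul]
      exact le_max_of_le_right hr.le
  · apply max_le
    · have := (X - C x).le_gaussNorm (av p) hr.le 0
      unfold G
      simpa [av_apply] using this
    · have := (X - C x).le_gaussNorm (av p) hr.le 1
      unfold G
      simpa [av_apply, coeff_X, coeff_C] using this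

/-- the radius: the norm of the square root of `q ^ w` -/
noncomputable def rad (a w : ℕ) : ℝ := Real.sqrt ((p : ℝ) ^ (-((a * w : ℕ) : ℤ)))

lemma p_pos : (0 : ℝ) < p := by exact_mod_cast (Fact.out : p.Prime).pos

lemma p_one : (1 : ℝ) < p := by exact_mod_cast (Fact.out : p.Prime).one_lt

lemma rad_pos (a w : ℕ) : 0 < rad p a w := Real.sqrt_pos.2 (zpow_pos (p_pos p) _)

lemma rad_sq (a w : ℕ) : rad p a w ^ 2 = (p : ℝ) ^ (-((a * w : ℕ) : ℤ)) :=
  Real.sq_sqrt (zpow_pos (p_pos p) _).le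

lemma rad_pow_sq (a w k : ℕ) : (rad p a w ^ k) ^ 2 = (p : ℝ) ^ (-((a * w * k : ℕ) : ℤ)) := by
  rw [← pow_mul, mul_comm k 2, pow_mul, rad_sq, ← zpow_natCast, ← zpow_mul]
  congr 1
  push_cast
  ring

/-- the polynomial over the algebraic closure of the `p`-adic numbers -/
noncomputable def toP (P : ℤ[X]) : (PadicAlgCl p)[X] := P.map (Int.castRingHom (PadicAlgCl p))

lemma upper {a w : ℕ} {h : ℕ → ℕ} {P : ℤ[X]} (hP : IsFrobPoly p a w h P) :
    G p (rad p a w) (toP p P) ^ 2 ≤
      (p : ℝ) ^ (a * width w h) * (rad p a w ^ P.natDegree) ^ 2 := by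
  obtain ⟨i, hi⟩ := (toP p P).exists_eq_gaussNorm (av p) (rad p a w)
  unfold G
  rw [hi]
  have hr := rad_pos p a w
  have hp := p_pos p
  by_cases hib : i ≤ P.natDegree
  · have hm := hP.mazur (P.natDegree - i) (by omega)
    rw [show P.natDegree - (P.natDegree - i) = i by omega] at hm
    have hn : av p ((toP p P).coeff i) ≤
        (p : ℝ) ^ (-((a * hodgePolygon w h (P.natDegree - i) : ℕ) : ℤ)) := by
      unfold toP
      rw [coeff_map, Int.coe_castRingHom, av_int]
      exact (Padic.norm_int_le_pow_iff_dvd _ _).2 (by exact_mod_cast hm)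
    have h0 : 0 ≤ av p ((toP p P).coeff i) := (av p).nonneg _
    have h1 : av p ((toP p P).coeff i) ^ 2 ≤
        (p : ℝ) ^ (-((2 * (a * hodgePolygon w h (P.natDegree - i)) : ℕ) : ℤ)) := by
      refine (pow_le_pow_left₀ h0 hn 2).trans (le_of_eq ?_)
      rw [← zpow_natCast, ← zpow_mul]
      congr 1
      push_cast
      ring
    have h2 := width_le w h (P.natDegree - i)
    rw [mul_pow, rad_pow_sq, rad_pow_sq]
    calc av p ((toP p P).coeff i) ^ 2 * (p : ℝ) ^ (-((a * w * i : ℕ) : ℤ))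
        ≤ (p : ℝ) ^ (-((2 * (a * hodgePolygon w h (P.natDegree - i)) : ℕ) : ℤ)) *
          (p : ℝ) ^ (-((a * w * i : ℕ) : ℤ)) :=
          mul_le_mul_of_nonneg_right h1 (zpow_pos hp _).le
      _ ≤ (p : ℝ) ^ ((a * width w h : ℕ) : ℤ) * (p : ℝ) ^ (-((a * w * P.natDegree : ℕ) : ℤ)) := by
          rw [← zpow_add₀ hp.ne', ← zpow_add₀ hp.ne']
          apply zpow_le_zpow_right₀ (p_one p).le
          obtain ⟨k, hk⟩ := Nat.exists_eq_add_of_le hib
          rw [hk] at h2 ⊢
          rw [show i + k - i = k by omega] at h2 ⊢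
          have h3 : a * (w * k) ≤ a * (width w h + 2 * hodgePolygon w h k) :=
            Nat.mul_le_mul_left a h2
          have h4 : (a : ℤ) * (w * k) ≤ a * (width w h + 2 * hodgePolygon w h k) := by
            exact_mod_cast h3
          push_cast
          linarith
      _ = _ := by rw [zpow_natCast]
  · have h0 : (toP p P).coeff i = 0 := by
      apply coeff_eq_zero_of_natDegree_lt
      exact lt_of_le_of_lt (natDegree_map_le) (by omega)
    rw [h0, (av p).map_zero, zero_mul, zero_pow two_ne_zero]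
    exact mul_nonneg (pow_pos hp _).le (sq_nonneg _)

lemma lower {r : ℝ} (hr : 0 < r) {f : ℤ[X]} (hf : f.Monic) :
    r ^ f.natDegree ≤ G p r (toP p f) := by
  have := G_lower p hr (hf.map (Int.castRingHom (PadicAlgCl p)))
  rwa [hf.natDegree_map] at this

/-- the gap between the value `r ^ d` of the Gauss norm and the next one -/
def Gap (a w t : ℕ) (f : ℤ[X]) : Prop :=
  G p (rad p a w) (toP p f) = rad p a w ^ f.natDegree ∨
    (p : ℝ) ^ t * (rad p a w ^ f.natDegree) ^ 2 ≤ G p (rad p a w) (toP p f) ^ 2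

lemma gap_aux {a w : ℕ} {f : ℤ[X]} (hf : f.Monic) :
    G p (rad p a w) (toP p f) = rad p a w ^ f.natDegree ∨
    ∃ m : ℤ, ∃ i : ℕ, G p (rad p a w) (toP p f) ^ 2 = (p : ℝ) ^ (2 * m - (a * w * i : ℕ)) ∧
      -((a * w * f.natDegree : ℕ) : ℤ) < 2 * m - (a * w * i : ℕ) := by
  have hr := rad_pos p a w
  have hp := p_pos p
  have hl := lower p hr hf
  rcases hl.eq_or_lt with h0 | h0
  · exact Or.inl h0.symm
  · right
    obtain ⟨i, hi⟩ := (toP p f).exists_eq_gaussNorm (av p) (rad p a w)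
    have hG : G p (rad p a w) (toP p f) = av p ((toP p f).coeff i) * rad p a w ^ i := hi
    have hpos : 0 < G p (rad p a w) (toP p f) := lt_trans (pow_pos hr _) h0
    have hne : (f.coeff i : ℚ_[p]) ≠ 0 := by
      intro hz
      unfold toP at hG
      rw [coeff_map, Int.coe_castRingHom, av_int, hz, norm_zero, zero_mul] at hG
      exact hpos.ne' hG
    refine ⟨-(f.coeff i : ℚ_[p]).valuation, i, ?_, ?_⟩
    · rw [hG]
      unfold toP
      rw [coeff_map, Int.coe_castRingHom, av_int, Padic.norm_eq_zpow_neg_valuation hne, mul_pow,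
        rad_pow_sq, ← zpow_natCast, ← zpow_mul, ← zpow_add₀ hp.ne']
      congr 1
      push_cast
      ring
    · have h1 : (rad p a w ^ f.natDegree) ^ 2 < G p (rad p a w) (toP p f) ^ 2 :=
        pow_lt_pow_left₀ h0 (pow_pos hr _).le two_ne_zero
      rw [hG, rad_pow_sq] at h1
      unfold toP at h1
      rw [coeff_map, Int.coe_castRingHom, av_int, Padic.norm_eq_zpow_neg_valuation hne, mul_pow,
        rad_pow_sq, ← zpow_natCast, ← zpow_mul, ← zpow_add₀ hp.ne',
        zpow_lt_zpow_iff_right₀ (p_one p)] at h1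
      push_cast at h1 ⊢
      linarith

lemma gap_one {a w : ℕ} {f : ℤ[X]} (hf : f.Monic) : Gap p a w 1 f := by
  have hp := p_pos p
  rcases gap_aux p (a := a) (w := w) hf with h | ⟨m, i, h1, h2⟩
  · exact Or.inl h
  · right
    rw [h1, rad_pow_sq, ← zpow_natCast, ← zpow_add₀ hp.ne']
    apply zpow_le_zpow_right₀ (p_one p).le
    push_cast at h2 ⊢
    linarith

lemma gap_two {a w : ℕ} (haw : Even (a * w)) {f : ℤ[X]} (hf : f.Monic) : Gap p a w 2 f := by
  have hp := p_pos p
  rcases gap_aux p (a := a) (w := w) hf with h | ⟨m, i, h1, h2⟩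
  · exact Or.inl h
  · right
    rw [h1, rad_pow_sq, ← zpow_natCast, ← zpow_add₀ hp.ne']
    apply zpow_le_zpow_right₀ (p_one p).le
    obtain ⟨c, hc⟩ := haw
    rw [hc] at h2 ⊢
    have e1 : (((c + c) * f.natDegree : ℕ) : ℤ) = 2 * (c * f.natDegree : ℕ) := by
      push_cast; ring
    have e2 : (((c + c) * i : ℕ) : ℤ) = 2 * (c * i : ℕ) := by push_cast; ring
    rw [e1, e2] at h2 ⊢
    push_cast at h2 ⊢
    omega

end Gauss

end Pool.Agent.D0H7.FR
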