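import Pool.Agent.D0H7.FR.Fam

set_option autoImplicit false

namespace Pool.Agent.D0H7.FR

open Polynomial Finset

section

variable (p : ℕ) [Fact p.Prime]

/-- The number of roots of `P` in an algebraic closure of the field of `p`-adic numbers, with
multiplicity, whose valuation, normalised by `v (p ^ a) = 1`, is `s`: the length of the projection of
the edge of slope `s` of the Newton polygon of `P`. -/
noncomputable def slopeMult (a : ℕ) (P : ℤ[X]) (s : ℚ) : ℕ := by
  classical
  exact Multiset.card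
    (((P.map (Int.castRingHom (PadicAlgCl p))).roots).filter
      fun y => ‖y‖ = (p : ℝ) ^ (-((a * s : ℚ) : ℝ)))

lemma norm_prod_multiset (s : Multiset (PadicAlgCl p)) : ‖s.prod‖ = (s.map norm).prod := by
  induction s using Multiset.induction with
  | empty => simp
  | cons x s ih => rw [Multiset.prod_cons, norm_mul, ih, Multiset.map_cons, Multiset.prod_cons]

lemma norm_aut (σ : PadicAlgCl p ≃ₐ[ℚ_[p]] PadicAlgCl p) (x : PadicAlgCl p) : ‖σ x‖ = ‖x‖ := by
  rw [← PadicAlgCl.spectralNorm_eq, ← PadicAlgCl.spectralNorm_eq]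
  exact (spectralNorm_eq_of_equiv σ x).symm

open Classical in
/-- the product of the roots of a given norm is a `p`-adic number -/
lemma norm_pow_int (f : ℤ[X]) (ρ : ℝ) (hρ : 0 < ρ) :
    ∃ n : ℤ, ρ ^ Multiset.card ((toP p f).roots.filter fun y => ‖y‖ = ρ) = (p : ℝ) ^ n := by
  set S := (toP p f).roots.filter fun y => ‖y‖ = ρ with hS
  have hnorm : ‖S.prod‖ = ρ ^ Multiset.card S := by
    rw [norm_prod_multiset]
    have : S.map norm = Multiset.replicate (Multiset.card S) ρ := by
      rw [Multiset.eq_replicate]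
      refine ⟨Multiset.card_map _ _, ?_⟩
      intro b hb
      obtain ⟨y, hy, rfl⟩ := Multiset.mem_map.1 hb
      exact (Multiset.mem_filter.1 hy).2
    rw [this, Multiset.prod_replicate]
  have hfix : ∀ σ : PadicAlgCl p ≃ₐ[ℚ_[p]] PadicAlgCl p, σ S.prod = S.prod := by
    intro σ
    have h1 : (toP p f).map (σ : PadicAlgCl p →+* PadicAlgCl p) = toP p f := by
      unfold toP
      rw [Polynomial.map_map]
      congr 1
      exact RingHom.ext_int _ _
    have h2 : (toP p f).roots.map (σ : PadicAlgCl p →+* PadicAlgCl p) = (toP p f).roots := by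
      have := (IsAlgClosed.splits (toP p f)).roots_map (σ : PadicAlgCl p →+* PadicAlgCl p)
      rw [h1] at this
      exact this.symm
    have h3 : S.map (σ : PadicAlgCl p →+* PadicAlgCl p) = S := by
      conv_rhs => rw [hS, ← h2, Multiset.filter_map]
      rw [hS]
      congr 1
      apply Multiset.filter_congr
      intro y _
      simp only [Function.comp]
      have : ‖(σ : PadicAlgCl p →+* PadicAlgCl p) y‖ = ‖y‖ := norm_aut p σ y
      rw [this]
    have h4 : (σ : PadicAlgCl p →+* PadicAlgCl p) S.prod = S.prod := by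
      rw [map_multiset_prod, h3]
    exact h4
  have hmem : S.prod ∈ Set.range (algebraMap ℚ_[p] (PadicAlgCl p)) :=
    (InfiniteGalois.mem_range_algebraMap_iff_fixed (k := ℚ_[p]) (K := PadicAlgCl p) S.prod).2 hfix
  obtain ⟨x, hx⟩ := hmem
  have hx0 : x ≠ 0 := by
    rintro rfl
    rw [map_zero] at hx
    rw [← hx, norm_zero] at hnorm
    exact (pow_pos hρ _).ne hnorm
  refine ⟨-x.valuation, ?_⟩
  rw [← hnorm, ← hx, ← Padic.norm_eq_zpow_neg_valuation hx0]
  exact PadicAlgCl.norm_extends p x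

lemma prod_max_eq {r : ℝ} (s : Multiset (PadicAlgCl p)) (h : ∀ x ∈ s, ‖x‖ ≤ r) :
    (s.map fun x => max ‖x‖ r).prod = r ^ Multiset.card s := by
  have : (s.map fun x => max ‖x‖ r) = Multiset.replicate (Multiset.card s) r := by
    rw [Multiset.eq_replicate]
    refine ⟨Multiset.card_map _ _, ?_⟩
    intro b hb
    obtain ⟨y, hy, rfl⟩ := Multiset.mem_map.1 hb
    exact max_eq_right (h y hy)
  rw [this, Multiset.prod_replicate]

end

lemma exists_big {K : Type*} [Field K] [CharZero K] {p : ℕ} [Fact p.Prime] {a w : ℕ} {h : ℕ → ℕ}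
    {P : ℤ[X]} (hP : IsFrobPoly p a w h P) (α : K) (hα : NonTate p a w α)
    (hroot : aeval α P = 0) :
    ∃ x ∈ (toP p (minpoly ℤ α)).roots, rad p a w < ‖x‖ := by
  have hr := rad_pos p a w
  have hint : IsIntegral ℤ α := ⟨P, hP.monic, hroot⟩
  have hfm : (minpoly ℤ α).Monic := minpoly.monic hint
  by_contra hcon
  push Not at hcon
  set F := toP p (minpoly ℤ α) with hF
  have hFm : F.Monic := hfm.map _
  have hsplit : F = (F.roots.map fun x => X - C x).prod :=
    (IsAlgClosed.splits F).eq_prod_roots_of_monic hFm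
  have hdeg : Multiset.card F.roots = (minpoly ℤ α).natDegree := by
    rw [← hfm.natDegree_map (Int.castRingHom (PadicAlgCl p))]
    exact (IsAlgClosed.splits F).natDegree_eq_card_roots.symm
  have hG : G p (rad p a w) F = rad p a w ^ (minpoly ℤ α).natDegree := by
    rw [hsplit, G_multiset p hr, prod_max_eq p _ hcon, hdeg]
  have hdvd : minpoly ℤ α ∣ P := minpoly.isIntegrallyClosed_dvd hint hroot
  have hN : 0 < p ^ (a * w) := pow_pos (Fact.out : p.Prime).pos _
  obtain ⟨n, hn, hn1⟩ := kronecker (p ^ (a * w)) hN α _ hfm (minpoly.aeval ℤ α)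
    (unit_dvd p hG) (by
    intro z hz
    push_cast
    apply hP.weil z
    obtain ⟨u, hu⟩ := hdvd
    rw [hu, map_mul, hz, zero_mul])
  apply hα n hn
  rw [hn1]
  push_cast
  rw [← pow_mul]

/-- The multiplicity of an eigenvalue which is not `q ^ (w / 2)` times a root of unity is bounded by
the Newton polygon. -/
theorem slope_bound {K : Type*} [Field K] [CharZero K] {p : ℕ} [Fact p.Prime] {a w : ℕ} (ha : 0 < a)
    {h : ℕ → ℕ} {P : ℤ[X]} (hP : IsFrobPoly p a w h P) (α : K) (hα : NonTate p a w α)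
    (hroot : aeval α P = 0) :
    ∃ s : ℚ, 2 * s < w ∧ ∃ m : ℕ, 0 < m ∧ (∃ n : ℤ, a * s * m = n) ∧
      m * (P.map (Int.castRingHom K)).rootMultiplicity α ≤ slopeMult p a P s := by
  classical
  have hp := p_pos p
  have hr := rad_pos p a w
  obtain ⟨x, hx, hxr⟩ := exists_big hP α hα hroot
  have hρ : 0 < ‖x‖ := hr.trans hxr
  obtain ⟨n, hn⟩ := norm_pow_int p (minpoly ℤ α) ‖x‖ hρ
  set S := (toP p (minpoly ℤ α)).roots.filter fun y => ‖y‖ = ‖x‖ with hS
  set m := Multiset.card S with hm
  have hm0 : 0 < m := by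
    rw [hm, Multiset.card_pos_iff_exists_mem]
    exact ⟨x, Multiset.mem_filter.2 ⟨hx, rfl⟩⟩
  have hmR : (m : ℝ) ≠ 0 := by exact_mod_cast hm0.ne'
  have haQ : (a : ℚ) ≠ 0 := by exact_mod_cast ha.ne'
  have hmQ : (m : ℚ) ≠ 0 := by exact_mod_cast hm0.ne'
  let s : ℚ := -n / (a * m)
  have has : (a : ℚ) * s * m = ((-n : ℤ) : ℚ) := by
    simp only [s]
    push_cast
    field_simp
  have has' : (a : ℚ) * s = -n / m := by
    rw [eq_div_iff hmQ, has]; push_cast; rfl
  have hnorm : ‖x‖ = (p : ℝ) ^ (-((a * s : ℚ) : ℝ)) := by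
    have h1 : ‖x‖ = (‖x‖ ^ m) ^ ((m : ℝ)⁻¹) := (Real.pow_rpow_inv_natCast hρ.le hm0.ne').symm
    rw [h1, hn, ← Real.rpow_intCast, ← Real.rpow_mul hp.le, has']
    congr 1
    push_cast
    field_simp
  refine ⟨s, ?_, m, hm0, ⟨-n, has⟩, ?_⟩
  · -- the slope is smaller than `w / 2`
    have h1 : rad p a w ^ 2 < ‖x‖ ^ 2 := pow_lt_pow_left₀ hxr hr.le two_ne_zero
    rw [rad_sq, hnorm, ← Real.rpow_intCast, ← Real.rpow_natCast, ← Real.rpow_mul hp.le,
      Real.rpow_lt_rpow_left_iff (p_one p)] at h1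
    have h2 : (a : ℝ) * (2 * (s : ℝ)) < a * w := by
      push_cast at h1
      linarith
    have h3 : 2 * (s : ℝ) < w := lt_of_mul_lt_mul_left h2 (by positivity)
    exact_mod_cast h3
  · obtain ⟨h1, h2, h3⟩ := rootMult_le hP.monic α hroot
    set e := multiplicity (minpoly ℤ α) P with he
    have h4 : (minpoly ℤ α) ^ e ∣ P := pow_multiplicity_dvd _ _
    have hint : IsIntegral ℤ α := ⟨P, hP.monic, hroot⟩
    have hfm : (minpoly ℤ α).Monic := minpoly.monic hint
    have h5 : e • (toP p (minpoly ℤ α)).roots ≤ (toP p P).roots := by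
      rw [← Polynomial.roots_pow]
      apply Polynomial.roots.le_of_dvd (hP.monic.map _).ne_zero
      have := Polynomial.map_dvd (Int.castRingHom (PadicAlgCl p)) h4
      rw [Polynomial.map_pow] at this
      exact this
    have h6 : e • S ≤ (toP p P).roots.filter fun y => ‖y‖ = ‖x‖ := by
      rw [hS, ← Multiset.filter_nsmul]
      exact Multiset.filter_le_filter _ h5
    have h7 : e * m ≤ slopeMult p a P s := by
      have h8 := Multiset.card_le_card h6
      rw [Multiset.card_nsmul, ← hm] at h8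
      unfold slopeMult
      rw [← hnorm]
      exact h8
    calc m * (P.map (Int.castRingHom K)).rootMultiplicity α ≤ m * e := Nat.mul_le_mul_left m h1
      _ = e * m := mul_comm _ _
      _ ≤ _ := h7

end Pool.Agent.D0H7.FR
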